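import Mathlib

set_option autoImplicit false

namespace Pool.Agent.H97

section Basic

variable {ι : Type*} [Fintype ι] {R : Type*} [CommRing R] {R' : Type*} [CommRing R']

/-- The value at `x` of the quadratic form with integer coefficient matrix `A`. -/
def qf (A : Matrix ι ι ℤ) (x : ι → R) : R := ∑ i, ∑ j, (A i j : R) * (x i * x j)

/-- The polar bilinear form of `qf A`. -/
def bf (A : Matrix ι ι ℤ) (x y : ι → R) : R := ∑ i, ∑ j, (A i j : R) * (x i * y j + y i * x j)

variable (A : Matrix ι ι ℤ)

theorem qf_add (x y : ι → R) : qf A (x + y) = qf A x + qf A y + bf A x y := by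
  simp only [qf, bf, ← Finset.sum_add_distrib, Pi.add_apply]
  refine Finset.sum_congr rfl fun i _ => Finset.sum_congr rfl fun j _ => ?_
  ring

theorem qf_smul (c : R) (x : ι → R) : qf A (c • x) = c ^ 2 * qf A x := by
  simp only [qf, Finset.mul_sum, Pi.smul_apply, smul_eq_mul]
  refine Finset.sum_congr rfl fun i _ => Finset.sum_congr rfl fun j _ => ?_
  ring

theorem bf_self (x : ι → R) : bf A x x = 2 * qf A x := by
  simp only [qf, bf, Finset.mul_sum]
  refine Finset.sum_congr rfl fun i _ => Finset.sum_congr rfl fun j _ => ?_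
  ring

theorem bf_comm (x y : ι → R) : bf A x y = bf A y x := by
  simp only [bf]
  refine Finset.sum_congr rfl fun i _ => Finset.sum_congr rfl fun j _ => ?_
  ring

theorem bf_add_right (x y z : ι → R) : bf A x (y + z) = bf A x y + bf A x z := by
  simp only [bf, ← Finset.sum_add_distrib, Pi.add_apply]
  refine Finset.sum_congr rfl fun i _ => Finset.sum_congr rfl fun j _ => ?_
  ring

theorem bf_smul_right (c : R) (x y : ι → R) : bf A x (c • y) = c * bf A x y := by
  simp only [bf, Finset.mul_sum, Pi.smul_apply, smul_eq_mul]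
  refine Finset.sum_congr rfl fun i _ => Finset.sum_congr rfl fun j _ => ?_
  ring

theorem bf_add_left (x y z : ι → R) : bf A (x + y) z = bf A x z + bf A y z := by
  rw [bf_comm, bf_add_right, bf_comm, bf_comm A z y]

theorem bf_smul_left (c : R) (x y : ι → R) : bf A (c • x) y = c * bf A x y := by
  rw [bf_comm, bf_smul_right, bf_comm]

@[simp] theorem qf_zero : qf A (0 : ι → R) = 0 := by simp [qf]

@[simp] theorem bf_zero_right (x : ι → R) : bf A x 0 = 0 := by simp [bf]

@[simp] theorem bf_zero_left (x : ι → R) : bf A 0 x = 0 := by simp [bf]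

theorem bf_sum_right {κ : Type*} (s : Finset κ) (x : ι → R) (y : κ → ι → R) :
    bf A x (∑ k ∈ s, y k) = ∑ k ∈ s, bf A x (y k) := by
  classical
  induction s using Finset.induction_on with
  | empty => simp
  | insert a s ha ih => rw [Finset.sum_insert ha, Finset.sum_insert ha, bf_add_right, ih]

theorem map_qf (φ : R →+* R') (x : ι → R) : φ (qf A x) = qf A (fun i => φ (x i)) := by
  simp [qf, map_sum]

theorem map_bf (φ : R →+* R') (x y : ι → R) :
    φ (bf A x y) = bf A (fun i => φ (x i)) (fun i => φ (y i)) := by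
  simp [bf, map_sum]

theorem bf_eq_sum_single [DecidableEq ι] (x y : ι → R) :
    bf A x y = ∑ k, y k * bf A x (Pi.single k 1) := by
  have h : y = ∑ k, y k • (Pi.single k 1 : ι → R) := by
    ext i
    simp [Finset.sum_apply, Pi.single_apply]
  conv_lhs => rw [h]
  rw [bf_sum_right]
  refine Finset.sum_congr rfl fun k _ => ?_
  rw [bf_smul_right]

theorem bf_single_right [DecidableEq ι] (x : ι → R) (k : ι) :
    bf A x (Pi.single k 1) = ∑ i, ((A + A.transpose) k i : R) * x i := by
  have h : ∀ i j, (A i j : R) * (x i * (Pi.single k 1 : ι → R) j + (Pi.single k 1 : ι → R) i * x j)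
      = (if j = k then (A i k : R) * x i else 0) + (if i = k then (A k j : R) * x j else 0) := by
    intro i j
    by_cases h1 : j = k <;> by_cases h2 : i = k
    · subst h1; subst h2; simp; ring
    · subst h1; simp [h2]
    · subst h2; simp [h1]
    · simp [h1, h2]
  simp only [bf, h, Finset.sum_add_distrib]
  have h3 : ∑ x_1, ∑ x_2, (if x_1 = k then (A k x_2 : R) * x x_2 else 0)
      = ∑ j, (A k j : R) * x j := by
    rw [Finset.sum_comm]
    simp
  rw [h3]
  simp only [Finset.sum_ite_eq', Finset.mem_univ, if_true]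
  rw [← Finset.sum_add_distrib]
  refine Finset.sum_congr rfl fun i _ => ?_
  simp [Matrix.add_apply, Matrix.transpose_apply]
  ring

/-- If the polar form of `x` vanishes identically then `det (A + Aᵀ) • x = 0`. -/
theorem det_mul_eq_zero [DecidableEq ι] (x : ι → R) (h : ∀ k, bf A x (Pi.single k 1) = 0) (i : ι) :
    ((A + A.transpose).det : R) * x i = 0 := by
  have h1 : ((A + A.transpose).map (Int.cast : ℤ → R)).mulVec x = 0 := by
    ext k
    rw [Matrix.mulVec, dotProduct]
    simp only [Matrix.map_apply, Pi.zero_apply]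
    rw [← bf_single_right, h]
  have h2 := congrArg (((A + A.transpose).map (Int.cast : ℤ → R)).adjugate.mulVec) h1
  rw [Matrix.mulVec_mulVec, Matrix.adjugate_mul, Matrix.mulVec_zero, Matrix.smul_mulVec,
    Matrix.one_mulVec] at h2
  have h3 := congrFun h2 i
  have h4 : ((A + A.transpose).map (Int.cast : ℤ → R)).det = ((A + A.transpose).det : R) := by
    have := (Int.castRingHom R).map_det (A + A.transpose)
    simpa [RingHom.mapMatrix_apply] using this.symm
  rw [h4] at h3
  simpa using h3

end Basic

section Local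

variable {ι : Type*} [Fintype ι] [DecidableEq ι]

/-- The radical of the reduction modulo `p` of the quadratic form `qf A`: the vectors at which the
form and its polar form both vanish. -/
def radSet (A : Matrix ι ι ℤ) (p : ℕ) : Set (ι → ZMod p) :=
  {w | (∀ k, bf A w (Pi.single k 1) = 0) ∧ qf A w = 0}

/-- The quadratic form `qf A` is good at `p`: the radical modulo `p` is at most a line, and the
form takes no value divisible by `p²` at lifts of nonzero vectors of the radical. -/
structure Good (A : Matrix ι ι ℤ) (p : ℕ) : Prop where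
  line : ∀ w ∈ radSet A p, w ≠ 0 → ∀ w' ∈ radSet A p, ∃ c : ZMod p, w' = c • w
  prim : ∀ v : ι → ℤ, (fun i => (v i : ZMod p)) ≠ 0 → (fun i => (v i : ZMod p)) ∈ radSet A p →
    ¬ ((p : ℤ) ^ 2 ∣ qf A v)

variable (A : Matrix ι ι ℤ)

theorem qf_sum_of_rad {R : Type*} [CommRing R] {α : Type*} (s : Finset α) (c : α → R)
    (w : α → ι → R) (hw : ∀ a ∈ s, ∀ k, bf A (w a) (Pi.single k 1) = 0) :
    qf A (∑ a ∈ s, c a • w a) = ∑ a ∈ s, c a ^ 2 * qf A (w a) := by
  classical
  induction s using Finset.induction_on with
  | empty => simp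
  | insert a s ha ih =>
    rw [Finset.sum_insert ha, Finset.sum_insert ha, qf_add, qf_smul,
      ih (fun b hb => hw b (Finset.mem_insert_of_mem hb))]
    have : bf A (c a • w a) (∑ a ∈ s, c a • w a) = 0 := by
      rw [bf_smul_left, bf_eq_sum_single]
      simp [hw a (Finset.mem_insert_self a s)]
    rw [this, add_zero]

theorem zmod2_sq (z : ZMod 2) : z = z ^ 2 := by
  revert z; decide

theorem rad_decomp.{u} {D : Type u} [CommRing D] [IsDomain D] (p : ℕ) [Fact p.Prime] [Algebra (ZMod p) D]
    (ξ : ι → D) (h1 : ∀ k, bf A ξ (Pi.single k 1) = 0) (h2 : qf A ξ = 0) :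
    ∃ (α : Type u) (s : Finset α) (c : α → D) (w : α → ι → ZMod p),
      (∀ a, w a ∈ radSet A p) ∧ ξ = ∑ a ∈ s, c a • (fun j => algebraMap (ZMod p) D (w a j)) := by
  classical
  have : CharP D p := charP_of_injective_algebraMap (algebraMap (ZMod p) D).injective p
  let b := Module.Basis.ofVectorSpace (ZMod p) D
  let s : Finset _ := Finset.univ.biUnion fun j => (b.repr (ξ j)).support
  let w : _ → ι → ZMod p := fun a j => b.repr (ξ j) a
  have hξ : ξ = ∑ a ∈ s, b a • (fun j => algebraMap (ZMod p) D (w a j)) := by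
    ext j
    rw [Finset.sum_apply]
    have h3 : ξ j = ∑ a ∈ (b.repr (ξ j)).support, b.repr (ξ j) a • b a := by
      conv_lhs => rw [← b.linearCombination_repr (ξ j)]
      rfl
    conv_lhs => rw [h3]
    rw [Finset.sum_subset (s₂ := s)]
    · refine Finset.sum_congr rfl fun a _ => ?_
      rw [Algebra.smul_def, Pi.smul_apply, smul_eq_mul, mul_comm]
    · intro a ha
      exact Finset.mem_biUnion.mpr ⟨j, Finset.mem_univ _, ha⟩
    · intro a _ ha
      rw [Finsupp.notMem_support_iff.mp ha, zero_smul]
  have hbf : ∀ a k, bf A (w a) (Pi.single k 1) = 0 := by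
    intro a k
    have h3 := h1 k
    rw [bf_single_right] at h3 ⊢
    have h4 := congrArg (fun z => b.repr z a) h3
    simp only [map_sum, map_zero, Finsupp.coe_finsetSum, Finset.sum_apply, Finsupp.coe_zero,
      Pi.zero_apply] at h4
    rw [← h4]
    refine Finset.sum_congr rfl fun i _ => ?_
    have h5 : (((A + A.transpose) k i : ℤ) : D) * ξ i =
        (((A + A.transpose) k i : ℤ) : ZMod p) • ξ i := by
      rw [Algebra.smul_def, map_intCast]
    rw [h5, map_smul, Finsupp.smul_apply, smul_eq_mul]
  refine ⟨_, s, fun a => b a, w, ?_, hξ⟩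
  -- the quadratic form vanishes on all `w a`
  have hqsum : ∑ a ∈ s, (b a) ^ 2 * algebraMap (ZMod p) D (qf A (w a)) = 0 := by
    have h6 := qf_sum_of_rad A s (fun a => b a) (fun a j => algebraMap (ZMod p) D (w a j))
      (by
        intro a _ k
        have h7 := congrArg (algebraMap (ZMod p) D) (hbf a k)
        rw [map_bf, map_zero] at h7
        convert h7 using 2
        ext i
        by_cases hik : i = k
        · subst hik; simp
        · simp [hik])
    rw [← hξ, h2] at h6
    rw [h6]
    refine Finset.sum_congr rfl fun a _ => ?_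
    rw [map_qf]
  intro a
  refine ⟨hbf a, ?_⟩
  rcases (Fact.out : p.Prime).eq_two_or_odd with hp2 | hpodd
  · subst hp2
    by_cases ha : a ∈ s
    · have h8 : (∑ a ∈ s, qf A (w a) • b a) ^ 2 = 0 := by
        rw [sum_pow_char]
        rw [← hqsum]
        refine Finset.sum_congr rfl fun a _ => ?_
        rw [Algebra.smul_def, mul_pow, ← map_pow, ← zmod2_sq, mul_comm]
      have h9 : ∑ a ∈ s, qf A (w a) • b a = 0 := by
        exact pow_eq_zero_iff (two_ne_zero) |>.mp h8
      exact (linearIndependent_iff'.mp b.linearIndependent) s (fun a => qf A (w a)) h9 a ha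
    · have h10 : w a = 0 := by
        ext j
        by_contra hne
        exact ha (Finset.mem_biUnion.mpr ⟨j, Finset.mem_univ _, Finsupp.mem_support_iff.mpr hne⟩)
      rw [h10, qf_zero]
  · have h11 : bf A (w a) (w a) = 0 := by
      rw [bf_eq_sum_single]
      simp [hbf a]
    rw [bf_self] at h11
    have h12 : (2 : ZMod p) ≠ 0 := by
      intro h
      have : (p : ℕ) ∣ 2 := by
        have h' : ((2 : ℕ) : ZMod p) = 0 := by exact_mod_cast h
        exact (ZMod.natCast_eq_zero_iff 2 p).mp h'
      have := Nat.le_of_dvd (by norm_num) this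
      have := (Fact.out : p.Prime).two_le
      omega
    exact (mul_eq_zero.mp h11).resolve_left h12

/-- If `qf A` is good at `p`, then every common zero `ξ` of the form and its polar form over a
domain of characteristic `p`, normalized by `ξ i = 1`, is the reduction of an integer vector. -/
theorem exists_int_vector {D : Type*} [CommRing D] [IsDomain D] (p : ℕ) [Fact p.Prime]
    [Algebra (ZMod p) D] (hA : Good A p)
    (ξ : ι → D) (h1 : ∀ k, bf A ξ (Pi.single k 1) = 0) (h2 : qf A ξ = 0) (i : ι) (hi : ξ i = 1) :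
    ∃ n : ι → ℤ, n i = 1 ∧ (fun j => (n j : ZMod p)) ∈ radSet A p ∧ ∀ j, ξ j = (n j : D) := by
  classical
  obtain ⟨α, s, c, w, hw, hξ⟩ := rad_decomp A p ξ h1 h2
  have hex : ∃ a ∈ s, w a ≠ 0 := by
    by_contra hcon
    push Not at hcon
    have : ξ i = 0 := by
      rw [hξ, Finset.sum_apply]
      refine Finset.sum_eq_zero fun a ha => ?_
      simp [hcon a ha]
    rw [hi] at this
    exact one_ne_zero this
  obtain ⟨a0, -, ha0⟩ := hex
  set v := w a0 with hv
  choose t ht using fun a => hA.line v (hw a0) ha0 (w a) (hw a)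
  let θ : D := ∑ a ∈ s, c a * algebraMap (ZMod p) D (t a)
  have hθ : ∀ j, ξ j = algebraMap (ZMod p) D (v j) * θ := by
    intro j
    conv_lhs => rw [hξ]
    rw [Finset.sum_apply, Finset.mul_sum]
    refine Finset.sum_congr rfl fun a _ => ?_
    rw [ht a, Pi.smul_apply, Pi.smul_apply, smul_eq_mul, smul_eq_mul, map_mul]
    ring
  have hvi : v i ≠ 0 := by
    intro h
    have := hθ i
    rw [hi, h, map_zero, zero_mul] at this
    exact one_ne_zero this
  have hθ' : θ = algebraMap (ZMod p) D (v i)⁻¹ := by
    have h3 := hθ i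
    rw [hi] at h3
    have h4 : algebraMap (ZMod p) D (v i)⁻¹ * (algebraMap (ZMod p) D (v i) * θ) = θ := by
      rw [← mul_assoc, ← map_mul, inv_mul_cancel₀ hvi, map_one, one_mul]
    rw [← h4, ← h3, mul_one]
  let u : ι → ZMod p := (v i)⁻¹ • v
  have hu : u ∈ radSet A p := by
    refine ⟨fun k => ?_, ?_⟩
    · rw [bf_smul_left, (hw a0).1 k, mul_zero]
    · rw [qf_smul, (hw a0).2, mul_zero]
  have hui : u i = 1 := by simp [u, hvi]
  have hξu : ∀ j, ξ j = algebraMap (ZMod p) D (u j) := by
    intro j
    rw [hθ j, hθ', ← map_mul]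
    congr 1
    simp [u, mul_comm]
  refine ⟨fun j => if j = i then 1 else ((u j).val : ℤ), by simp, ?_, ?_⟩
  · convert hu using 1
    ext j
    by_cases hj : j = i
    · subst hj; simp [hui]
    · simp [hj]
  · intro j
    by_cases hj : j = i
    · subst hj; simp [hi]
    · simp only [hj, if_false]
      rw [hξu j]
      have : (((u j).val : ℤ) : D) = algebraMap (ZMod p) D (((u j).val : ℤ) : ZMod p) := by
        rw [map_intCast]
      rw [this]
      congr 1
      simp

end Local

end Pool.Agent.H97
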