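import Pool.Agent.H97.RegQuot
import Pool.Agent.H97.QForm

set_option autoImplicit false

namespace Pool.Agent.H97

open MvPolynomial

variable {ι : Type} [Fintype ι] [DecidableEq ι] (A : Matrix ι ι ℤ) (i : ι)

/-- The polynomial ring of the affine chart `x i = 1`. -/
abbrev ChartS (i : ι) := MvPolynomial {j // j ≠ i} ℤ

/-- The coordinate vector of the affine chart `x i = 1`. -/
noncomputable def chartVec (i : ι) : ι → MvPolynomial {j // j ≠ i} ℤ :=
  fun j => if h : j = i then 1 else X ⟨j, h⟩

omit [Fintype ι] in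
@[simp] theorem chartVec_self : chartVec i i = 1 := by simp [chartVec]

omit [Fintype ι] in
theorem chartVec_of_ne {j : ι} (h : j ≠ i) : chartVec i j = X ⟨j, h⟩ := by simp [chartVec, h]

/-- The dehomogenized quadratic polynomial in the chart `x i = 1`. -/
noncomputable def chartPoly : MvPolynomial {j // j ≠ i} ℤ := qf A (chartVec i)

omit [Fintype ι] in
theorem pderiv_chartVec (j : {j // j ≠ i}) (k : ι) :
    pderiv j (chartVec i k) = (Pi.single (j : ι) 1 : ι → MvPolynomial {j // j ≠ i} ℤ) k := by
  by_cases hk : k = i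
  · subst hk
    rw [chartVec_self, Pi.single_apply, if_neg j.2.symm]
    simp
  · rw [chartVec_of_ne i hk, pderiv_X, Pi.single_apply, Pi.single_apply]
    by_cases hkj : k = j
    · subst hkj; simp
    · have h2 : ¬ (⟨k, hk⟩ : {j // j ≠ i}) = j := fun h => hkj (congrArg Subtype.val h)
      simp [hkj, h2]

theorem pderiv_chartPoly (j : {j // j ≠ i}) :
    pderiv j (chartPoly A i) = bf A (chartVec i) (Pi.single (j : ι) 1) := by
  rw [chartPoly, qf, bf, map_sum]
  refine Finset.sum_congr rfl fun a _ => ?_
  rw [map_sum]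
  refine Finset.sum_congr rfl fun b _ => ?_
  rw [Derivation.leibniz, Derivation.leibniz, pderiv_chartVec, pderiv_chartVec]
  have : pderiv j ((A a b : ℤ) : MvPolynomial {j // j ≠ i} ℤ) = 0 := by
    simp
  rw [this]
  simp only [smul_eq_mul]
  ring

/-- A derivation maps the square of an ideal into the ideal. -/
theorem derivation_sq_mem {R S : Type*} [CommRing R] [CommRing S] [Algebra R S]
    (D : Derivation R S S) (P : Ideal S) {x : S} (hx : x ∈ P ^ 2) : D x ∈ P := by
  rw [pow_two] at hx
  induction hx using Submodule.mul_induction_on' with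
  | mem_mul_mem a ha b hb =>
    rw [Derivation.leibniz]
    exact P.add_mem (P.mul_mem_right _ ha) (P.mul_mem_right _ hb)
  | add a _ b _ ha hb =>
    rw [map_add]; exact P.add_mem ha hb

/-- Regularity of a good chart: the polynomial `chartPoly A i` does not lie in the square of any
prime ideal, locally. -/
theorem chartPoly_not_mem_sq (hdet : (A + A.transpose).det ≠ 0)
    (hA : ∀ p : ℕ, p.Prime → Good A p)
    (P : Ideal (MvPolynomial {j // j ≠ i} ℤ)) [hP : P.IsPrime] (hf : chartPoly A i ∈ P)
    (t : MvPolynomial {j // j ≠ i} ℤ) (ht : t ∉ P) : t * chartPoly A i ∉ P ^ 2 := by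
  intro hmem
  -- all partial derivatives lie in `P`
  have hder : ∀ j : {j // j ≠ i}, bf A (chartVec i) (Pi.single (j : ι) 1) ∈ P := by
    intro j
    have h1 := derivation_sq_mem (pderiv j) P hmem
    rw [Derivation.leibniz, pderiv_chartPoly, smul_eq_mul, smul_eq_mul] at h1
    have h2 : t * bf A (chartVec i) (Pi.single (j : ι) 1) ∈ P := by
      have h3 : chartPoly A i * pderiv j t ∈ P := P.mul_mem_right _ hf
      have h4 := P.sub_mem h1 h3
      simpa using h4
    exact (hP.mem_or_mem h2).resolve_left ht
  have hderi : bf A (chartVec i) (Pi.single i 1) ∈ P := by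
    have h1 : bf A (chartVec i) (chartVec i) ∈ P := by
      rw [bf_self]; exact P.mul_mem_left _ hf
    rw [bf_eq_sum_single, ← Finset.add_sum_erase _ _ (Finset.mem_univ i), chartVec_self,
      one_mul] at h1
    have h2 : ∑ k ∈ Finset.univ.erase i, chartVec i k * bf A (chartVec i) (Pi.single k 1) ∈ P :=
      P.sum_mem fun k hk => P.mul_mem_left _ (hder ⟨k, Finset.ne_of_mem_erase hk⟩)
    have h3 := P.sub_mem h1 h2
    simpa using h3
  have hderall : ∀ k, bf A (chartVec i) (Pi.single k 1) ∈ P := by
    intro k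
    by_cases hk : k = i
    · subst hk; exact hderi
    · exact hder ⟨k, hk⟩
  -- pass to the residue domain
  let D := ChartS i ⧸ P
  let π : ChartS i →+* D := Ideal.Quotient.mk P
  let ξ : ι → D := fun k => π (chartVec i k)
  have hξi : ξ i = 1 := by simp [ξ]
  have hξb : ∀ k, bf A ξ (Pi.single k 1) = 0 := by
    intro k
    have h1 : π (bf A (chartVec i) (Pi.single k 1)) = 0 :=
      Ideal.Quotient.eq_zero_iff_mem.mpr (hderall k)
    rw [map_bf] at h1
    convert h1 using 2
    ext j
    by_cases hjk : j = k
    · subst hjk; simp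
    · simp [hjk]
  have hξq : qf A ξ = 0 := by
    have h1 : π (chartPoly A i) = 0 := Ideal.Quotient.eq_zero_iff_mem.mpr hf
    rw [chartPoly, map_qf] at h1
    exact h1
  have hdomain : IsDomain D := Ideal.Quotient.isDomain P
  obtain ⟨p, hchar⟩ := CharP.exists D
  rcases CharP.char_is_prime_or_zero D p with hp | hp0
  swap
  · subst hp0
    have : CharZero D := CharP.charP_to_charZero D
    have h1 := det_mul_eq_zero A ξ hξb i
    rw [hξi, mul_one] at h1
    exact hdet (by exact_mod_cast h1)
  have : Fact p.Prime := ⟨hp⟩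
  let alg : Algebra (ZMod p) D := ZMod.algebra D p
  obtain ⟨n, hni, hnrad, hn⟩ := exists_int_vector A p (hA p hp) ξ hξb hξq i hξi
  have hpP : (p : ChartS i) ∈ P := by
    rw [← Ideal.Quotient.eq_zero_iff_mem]
    have h1 : ((p : ℕ) : D) = 0 := CharP.cast_eq_zero D p
    rw [← h1]
    exact map_natCast (Ideal.Quotient.mk P) p
  have hXn : ∀ j, chartVec i j - (n j : ChartS i) ∈ P := by
    intro j
    rw [← Ideal.Quotient.eq_zero_iff_mem, map_sub, sub_eq_zero]
    have h1 := hn j
    rw [show ξ j = Ideal.Quotient.mk P (chartVec i j) from rfl] at h1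
    rw [h1, map_intCast]
  -- evaluation at `n`
  let ε : ChartS i →+* ℤ := (MvPolynomial.eval (fun j : {j // j ≠ i} => n j))
  have hε : ∀ h : ChartS i, h - (ε h : ChartS i) ∈ P := by
    intro h
    have h1 : Ideal.Quotient.mk P h = Ideal.Quotient.mk P (ε h : ChartS i) := by
      have h2 : (Ideal.Quotient.mk P) = ((Int.castRingHom D).comp ε) := by
        apply MvPolynomial.ringHom_ext
        · intro r
          simp [ε]
        · intro j
          have h3 := hn j
          simp only [ξ, π, chartVec_of_ne i j.2] at h3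
          simp only [RingHom.comp_apply, ε, eval_X, eq_intCast]
          exact h3
      rw [map_intCast]
      exact congrFun (congrArg DFunLike.coe h2) h
    rw [← Ideal.Quotient.eq_zero_iff_mem, map_sub, h1, sub_self]
  have hεP : ∀ h ∈ P, (p : ℤ) ∣ ε h := by
    intro h hh
    have h1 : (ε h : ChartS i) ∈ P := by
      have := P.sub_mem hh (hε h)
      simpa using this
    rw [← Ideal.Quotient.eq_zero_iff_mem, map_intCast] at h1
    exact (CharP.intCast_eq_zero_iff D p (ε h)).mp h1
  have hεP2 : ∀ h ∈ P ^ 2, (p : ℤ) ^ 2 ∣ ε h := by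
    intro h hh
    rw [pow_two] at hh
    induction hh using Submodule.mul_induction_on' with
    | mem_mul_mem a ha b hb =>
      rw [map_mul, pow_two]
      exact mul_dvd_mul (hεP a ha) (hεP b hb)
    | add a _ b _ ha hb =>
      rw [map_add]; exact dvd_add ha hb
  -- conclusion
  have h1 := hεP2 _ hmem
  have h2 : ε (chartPoly A i) = qf A n := by
    rw [chartPoly, map_qf]
    congr 1
    ext j
    by_cases hj : j = i
    · subst hj; simp [hni]
    · rw [chartVec_of_ne i hj]; simp only [ε, eval_X]
  rw [map_mul, h2] at h1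
  have h3 : ¬ (p : ℤ) ∣ ε t := by
    intro h
    apply ht
    have h4 : ((ε t : ℤ) : ChartS i) ∈ P := by
      obtain ⟨r, hr⟩ := h
      rw [hr]
      push_cast
      exact P.mul_mem_right _ hpP
    have := P.add_mem (hε t) h4
    simpa using this
  have hprime : Prime (p : ℤ) := Nat.prime_iff_prime_int.mp hp
  have h5 : (p : ℤ) ^ 2 ∣ qf A n := (hprime.pow_dvd_of_dvd_mul_left 2 h3 h1)
  refine (hA p hp).prim n ?_ hnrad h5
  intro h
  have := congrFun h i
  simp [hni] at this

theorem isRegularRing_chart (hdet : (A + A.transpose).det ≠ 0)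
    (hA : ∀ p : ℕ, p.Prime → Good A p) :
    IsRegularRing (MvPolynomial {j // j ≠ i} ℤ ⧸ Ideal.span {chartPoly A i}) := by
  have h := isRegularRing_quotient (fun _ : Fin 1 => chartPoly A i) (by
    intro P hP hf a t ht hmem k
    by_contra hak
    have hk : k = 0 := Subsingleton.elim _ _
    subst hk
    have hta : t * a 0 ∉ P := fun h => (hP.mem_or_mem h).elim ht hak
    apply chartPoly_not_mem_sq A i hdet hA P (hf 0) (t * a 0) hta
    simpa [mul_assoc] using hmem)
  have hr : Set.range (fun _ : Fin 1 => chartPoly A i) = {chartPoly A i} := by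
    ext x; simp
  rw [hr] at h
  exact h

end Pool.Agent.H97
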