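import Pool.Agent.H97.Singular

set_option autoImplicit false

namespace Pool.Agent.H97

open Matrix

variable {n : ℕ}

/-- The integer matrix `A` represents, up to a nonzero scalar and a rational change of coordinates,
the quadratic form over `ℚ` with coefficient matrix `S`. -/
def Rep (S : Matrix (Fin n) (Fin n) ℚ) (A : Matrix (Fin n) (Fin n) ℤ) : Prop :=
  ∃ (M : Matrix (Fin n) (Fin n) ℚ) (c : ℚ), M.det ≠ 0 ∧ c ≠ 0 ∧
    (A + Aᵀ).map (Int.cast : ℤ → ℚ) = c • (Mᵀ * (S + Sᵀ) * M)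

theorem bf_eq_dotProduct {ι : Type*} [Fintype ι] {R : Type*} [CommRing R] (A : Matrix ι ι ℤ)
    (x y : ι → R) : bf A x y = x ⬝ᵥ ((A + Aᵀ).map (Int.cast : ℤ → R)).mulVec y := by
  simp only [bf, dotProduct, mulVec, Matrix.map_apply, Matrix.add_apply, Matrix.transpose_apply,
    Int.cast_add, Finset.mul_sum]
  have h1 : ∀ i j, (A i j : R) * (x i * y j + y i * x j) =
      (A i j : R) * (x i * y j) + (A i j : R) * (y i * x j) := fun i j => by ring
  simp only [h1, Finset.sum_add_distrib]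
  rw [Finset.sum_comm (f := fun i j => (A i j : R) * (y i * x j))]
  simp only [← Finset.sum_add_distrib]
  refine Finset.sum_congr rfl fun i _ => Finset.sum_congr rfl fun j _ => ?_
  ring

/-- An even symmetric integer matrix is of the form `A + Aᵀ`. -/
theorem exists_add_transpose (G : Matrix (Fin n) (Fin n) ℤ) (hs : Gᵀ = G)
    (he : ∀ i, Even (G i i)) : ∃ A : Matrix (Fin n) (Fin n) ℤ, A + Aᵀ = G := by
  refine ⟨Matrix.of fun i j => if i = j then G i i / 2 else if i < j then G i j else 0, ?_⟩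
  ext i j
  have hsym : G j i = G i j := by
    have := congrFun (congrFun hs i) j
    simpa using this
  rw [Matrix.add_apply, Matrix.transpose_apply, Matrix.of_apply, Matrix.of_apply]
  rcases lt_trichotomy i j with h | h | h
  · simp [h.ne, h.ne', h, not_lt.mpr h.le]
  · subst h
    obtain ⟨r, hr⟩ := he i
    simp only [if_true]
    omega
  · simp [h.ne, h.ne', h, not_lt.mpr h.le, hsym]

theorem dotProduct_transform {R : Type*} [CommRing R] (G M : Matrix (Fin n) (Fin n) R)
    (x y : Fin n → R) : x ⬝ᵥ (Mᵀ * G * M).mulVec y = M.mulVec x ⬝ᵥ G.mulVec (M.mulVec y) := by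
  rw [← Matrix.mulVec_mulVec, ← Matrix.mulVec_mulVec, Matrix.dotProduct_mulVec,
    Matrix.vecMul_transpose]

/-- A rational matrix transform of an integral form which takes integer values on integer vectors
is again given by an integer matrix. -/
theorem exists_transform (A : Matrix (Fin n) (Fin n) ℤ) (M : Matrix (Fin n) (Fin n) ℚ) (c : ℚ)
    (h : ∀ x : Fin n → ℤ, ∃ z : ℤ, c * qf A (M.mulVec fun i => (x i : ℚ)) = z) :
    ∃ A' : Matrix (Fin n) (Fin n) ℤ,
      (A' + A'ᵀ).map (Int.cast : ℤ → ℚ) = c • (Mᵀ * (A + Aᵀ).map (Int.cast : ℤ → ℚ) * M) := by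
  set G : Matrix (Fin n) (Fin n) ℚ := c • (Mᵀ * (A + Aᵀ).map (Int.cast : ℤ → ℚ) * M) with hG
  have hentry : ∀ i j, G i j = c * bf A (M.mulVec (Pi.single i 1)) (M.mulVec (Pi.single j 1)) := by
    intro i j
    rw [bf_eq_dotProduct, hG, Matrix.smul_apply, smul_eq_mul]
    congr 1
    rw [← dotProduct_transform]
    simp
  have hcast : ∀ (i : Fin n), (fun k => (((Pi.single i 1 : Fin n → ℤ) k : ℤ) : ℚ)) =
      (Pi.single i 1 : Fin n → ℚ) := by
    intro i
    ext k
    by_cases hk : k = i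
    · subst hk; simp
    · simp [hk]
  have hdiag : ∀ i, ∃ z : ℤ, G i i = 2 * z := by
    intro i
    obtain ⟨z, hz⟩ := h (Pi.single i 1)
    refine ⟨z, ?_⟩
    rw [hcast] at hz
    rw [hentry, bf_self, ← hz]
    ring
  have hint : ∀ i j, ∃ z : ℤ, G i j = z := by
    intro i j
    obtain ⟨z, hz⟩ := h (Pi.single i 1)
    obtain ⟨z', hz'⟩ := h (Pi.single j 1)
    obtain ⟨z'', hz''⟩ := h (Pi.single i 1 + Pi.single j 1)
    rw [hcast] at hz hz'
    refine ⟨z'' - z - z', ?_⟩
    have h1 : (fun k => (((Pi.single i 1 + Pi.single j 1 : Fin n → ℤ) k : ℤ) : ℚ)) =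
      Pi.single i 1 + Pi.single j 1 := by
      rw [← hcast i, ← hcast j]
      ext k
      simp
    rw [h1, Matrix.mulVec_add, qf_add] at hz''
    rw [hentry]
    push_cast
    rw [← hz, ← hz', ← hz'']
    ring
  choose g hg using hint
  have hsymm : Gᵀ = G := by
    ext i j
    rw [Matrix.transpose_apply, hentry, hentry, bf_comm]
  obtain ⟨A', hA'⟩ := exists_add_transpose (Matrix.of g) (by
      ext i j
      have h1 := congrFun (congrFun hsymm i) j
      rw [Matrix.transpose_apply, hg, hg] at h1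
      simpa using h1) (by
      intro i
      obtain ⟨z, hz⟩ := hdiag i
      rw [hg] at hz
      have : g i i = 2 * z := by exact_mod_cast hz
      rw [Matrix.of_apply, this]
      exact ⟨z, by ring⟩)
  refine ⟨A', ?_⟩
  rw [hA']
  ext i j
  rw [Matrix.map_apply, Matrix.of_apply, hg]

theorem exists_rep (S : Matrix (Fin n) (Fin n) ℚ) : ∃ A, Rep S A := by
  classical
  let b : ℤ := ∏ i, ∏ j, ((S i j).den : ℤ)
  have hb : b ≠ 0 := Finset.prod_ne_zero_iff.mpr fun i _ => Finset.prod_ne_zero_iff.mpr fun j _ =>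
    by exact_mod_cast (S i j).den_ne_zero
  have hint : ∀ i j, ∃ z : ℤ, (b : ℚ) * S i j = z := by
    intro i j
    have h1 : ((S i j).den : ℤ) ∣ b :=
      (Finset.dvd_prod_of_mem (fun j => ((S i j).den : ℤ)) (Finset.mem_univ j)).trans
        (Finset.dvd_prod_of_mem (fun i => ∏ j, ((S i j).den : ℤ)) (Finset.mem_univ i))
    obtain ⟨r, hr⟩ := h1
    refine ⟨r * (S i j).num, ?_⟩
    have h2 : ((S i j).den : ℚ) * S i j = (S i j).num := Rat.den_mul_eq_num _
    rw [hr]
    push_cast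
    rw [← h2]
    ring
  choose g hg using hint
  refine ⟨Matrix.of g, 1, b, by simp, by exact_mod_cast hb, ?_⟩
  ext i j
  simp only [Matrix.map_apply, Matrix.add_apply, Matrix.transpose_apply, Matrix.of_apply,
    Matrix.transpose_one, Matrix.one_mul, Matrix.mul_one, Matrix.smul_apply, smul_eq_mul]
  push_cast
  rw [← hg, ← hg]
  ring

theorem map_det (A : Matrix (Fin n) (Fin n) ℤ) :
    (A.map (Int.cast : ℤ → ℚ)).det = (A.det : ℚ) := by
  have := (Int.castRingHom ℚ).map_det A
  simpa [RingHom.mapMatrix_apply] using this.symm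

theorem det_transform (G M : Matrix (Fin n) (Fin n) ℚ) (c : ℚ) :
    (c • (Mᵀ * G * M)).det = c ^ n * M.det ^ 2 * G.det := by
  rw [Matrix.det_smul, Matrix.det_mul, Matrix.det_mul, Matrix.det_transpose, Fintype.card_fin]
  ring

theorem Rep.det_ne_zero {S : Matrix (Fin n) (Fin n) ℚ} {A : Matrix (Fin n) (Fin n) ℤ}
    (h : Rep S A) (hS : (S + Sᵀ).det ≠ 0) : (A + Aᵀ).det ≠ 0 := by
  obtain ⟨M, c, hM, hc, h⟩ := h
  intro h0
  have h1 := congrArg Matrix.det h
  rw [map_det, det_transform, h0] at h1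
  have h2 : c ^ n * M.det ^ 2 * (S + Sᵀ).det ≠ 0 :=
    mul_ne_zero (mul_ne_zero (pow_ne_zero _ hc) (pow_ne_zero _ hM)) hS
  exact h2 (by rw [← h1]; simp)

theorem Rep.trans {S : Matrix (Fin n) (Fin n) ℚ} {A A' : Matrix (Fin n) (Fin n) ℤ}
    (h : Rep S A) {M' : Matrix (Fin n) (Fin n) ℚ} {c' : ℚ} (hM' : M'.det ≠ 0) (hc' : c' ≠ 0)
    (h' : (A' + A'ᵀ).map (Int.cast : ℤ → ℚ) =
      c' • (M'ᵀ * (A + Aᵀ).map (Int.cast : ℤ → ℚ) * M')) : Rep S A' := by
  obtain ⟨M, c, hM, hc, h⟩ := h
  refine ⟨M * M', c' * c, by rw [Matrix.det_mul]; exact mul_ne_zero hM hM',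
    mul_ne_zero hc' hc, ?_⟩
  rw [h', h, Matrix.transpose_mul]
  simp only [Matrix.mul_smul, Matrix.smul_mul, smul_smul, Matrix.mul_assoc]

/-- Existence of an integral representative of minimal discriminant. -/
theorem exists_minimal (S : Matrix (Fin n) (Fin n) ℚ) (hS : (S + Sᵀ).det ≠ 0) :
    ∃ A, Rep S A ∧ ∀ (M : Matrix (Fin n) (Fin n) ℚ) (c : ℚ), M.det ≠ 0 → c ≠ 0 →
      (∀ x : Fin n → ℤ, ∃ z : ℤ, c * qf A (M.mulVec fun i => (x i : ℚ)) = z) →
      1 ≤ |c| ^ n * M.det ^ 2 := by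
  classical
  let P : ℕ → Prop := fun d => ∃ A, Rep S A ∧ (A + Aᵀ).det.natAbs = d
  have hP : ∃ d, P d := by
    obtain ⟨A, hA⟩ := exists_rep S
    exact ⟨_, A, hA, rfl⟩
  obtain ⟨A, hA, hd⟩ := Nat.find_spec hP
  refine ⟨A, hA, fun M c hM hc hint => ?_⟩
  obtain ⟨A', hA'⟩ := exists_transform A M c hint
  have hrep := hA.trans hM hc hA'
  have hmin : (A + Aᵀ).det.natAbs ≤ (A' + A'ᵀ).det.natAbs := by
    rw [hd]; exact Nat.find_min' hP ⟨A', hrep, rfl⟩
  have hdet := congrArg Matrix.det hA'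
  rw [map_det, det_transform, map_det] at hdet
  have hpos : (0 : ℚ) < |((A + Aᵀ).det : ℚ)| := by
    rw [abs_pos]; exact_mod_cast hA.det_ne_zero hS
  have h1 : |((A + Aᵀ).det : ℚ)| ≤ |((A' + A'ᵀ).det : ℚ)| := by
    rw [← Int.cast_abs, ← Int.cast_abs]
    rw [Int.abs_eq_natAbs, Int.abs_eq_natAbs]
    exact_mod_cast hmin
  rw [hdet, abs_mul, abs_mul, abs_pow, abs_of_nonneg (sq_nonneg M.det)] at h1
  by_contra hcon
  push Not at hcon
  have h2 : |c| ^ n * M.det ^ 2 * |((A + Aᵀ).det : ℚ)| < 1 * |((A + Aᵀ).det : ℚ)| :=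
    mul_lt_mul_of_pos_right hcon hpos
  rw [one_mul] at h2
  exact absurd h1 (not_le.mpr h2)

section Moves

variable {A : Matrix (Fin n) (Fin n) ℤ} {p : ℕ} [hp : Fact p.Prime]

theorem cast_bf (x y : Fin n → ℤ) (R : Type*) [CommRing R] :
    ((bf A x y : ℤ) : R) = bf A (fun i => (x i : R)) (fun i => (y i : R)) := by
  have := map_bf A (Int.castRingHom R) x y
  simpa using this

theorem cast_qf (x : Fin n → ℤ) (R : Type*) [CommRing R] :
    ((qf A x : ℤ) : R) = qf A (fun i => (x i : R)) := by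
  have := map_qf A (Int.castRingHom R) x
  simpa using this

theorem dvd_bf_of_rad {v : Fin n → ℤ} (hv : (fun i => (v i : ZMod p)) ∈ radSet A p)
    (y : Fin n → ℤ) : (p : ℤ) ∣ bf A v y := by
  rw [← ZMod.intCast_zmod_eq_zero_iff_dvd, cast_bf]
  exact bf_eq_zero_of_rad A hv.1 _

/-- For a minimal representative, the form is not divisible by `p²` at radical vectors. -/
theorem prim_of_minimal
    (hmin : ∀ (M : Matrix (Fin n) (Fin n) ℚ) (c : ℚ), M.det ≠ 0 → c ≠ 0 →
      (∀ x : Fin n → ℤ, ∃ z : ℤ, c * qf A (M.mulVec fun i => (x i : ℚ)) = z) →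
      1 ≤ |c| ^ n * M.det ^ 2)
    (v : Fin n → ℤ) (hv0 : (fun i => (v i : ZMod p)) ≠ 0)
    (hv : (fun i => (v i : ZMod p)) ∈ radSet A p) : ¬ ((p : ℤ) ^ 2 ∣ qf A v) := by
  intro hdvd
  have hp0 : (p : ℚ) ≠ 0 := by exact_mod_cast hp.out.ne_zero
  -- normalize a coordinate
  obtain ⟨j, hj⟩ : ∃ j, (v j : ZMod p) ≠ 0 := by
    by_contra hcon
    push Not at hcon
    exact hv0 (funext hcon)
  obtain ⟨u, hu⟩ : ∃ u : ℤ, (p : ℤ) ∣ u * v j - 1 := by
    refine ⟨((v j : ZMod p)⁻¹).val, ?_⟩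
    rw [← ZMod.intCast_zmod_eq_zero_iff_dvd]
    push_cast
    rw [ZMod.natCast_zmod_val, inv_mul_cancel₀ hj, sub_self]
  obtain ⟨r, hr⟩ := hu
  let v' : Fin n → ℤ := u • v - (p : ℤ) • (r • (Pi.single j 1 : Fin n → ℤ))
  have hv'j : v' j = 1 := by
    simp only [v', Pi.sub_apply, Pi.smul_apply, Pi.single_eq_same, smul_eq_mul]
    linarith
  have hbv' : ∀ y, (p : ℤ) ∣ bf A y v' := by
    intro y
    have h1 : v' = u • v + (-(p : ℤ) * r) • (Pi.single j 1 : Fin n → ℤ) := by
      simp only [v', smul_smul, neg_mul, neg_smul, sub_eq_add_neg]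
    rw [h1, bf_add_right, bf_smul_right, bf_smul_right]
    refine dvd_add (Dvd.dvd.mul_left ?_ _) ⟨-r * bf A y (Pi.single j 1), by ring⟩
    rw [bf_comm]; exact dvd_bf_of_rad hv y
  have hqv' : (p : ℤ) ^ 2 ∣ qf A v' := by
    have h1 : v' = u • v + (-(p : ℤ) * r) • (Pi.single j 1 : Fin n → ℤ) := by
      simp only [v', smul_smul, neg_mul, neg_smul, sub_eq_add_neg]
    rw [h1, qf_add, qf_smul, qf_smul, bf_smul_left, bf_smul_right]
    refine dvd_add (dvd_add (Dvd.dvd.mul_left hdvd _) ?_) ?_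
    · exact ⟨r ^ 2 * qf A (Pi.single j 1), by ring⟩
    · obtain ⟨s, hs⟩ := dvd_bf_of_rad hv (Pi.single j 1)
      rw [hs]
      exact ⟨-u * r * s, by ring⟩
  obtain ⟨a, ha⟩ := hqv'
  let M : Matrix (Fin n) (Fin n) ℚ := (1 : Matrix (Fin n) (Fin n) ℚ).updateCol j
    (fun k => (v' k : ℚ) / p)
  have hMdet : M.det = 1 / p := by
    rw [← Matrix.cramer_apply, Matrix.cramer_one]
    show (v' j : ℚ) / p = 1 / p
    rw [hv'j]; simp
  have hMx : ∀ x : Fin n → ℤ, M.mulVec (fun i => (x i : ℚ)) =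
      (fun i => (((x - x j • (Pi.single j 1 : Fin n → ℤ)) i : ℤ) : ℚ)) +
        ((x j : ℚ) / p) • (fun i => (v' i : ℚ)) := by
    intro x
    ext i
    rw [Matrix.mulVec, dotProduct, ← Finset.add_sum_erase _ _ (Finset.mem_univ j)]
    have h1 : ∀ k ∈ Finset.univ.erase j, M i k * (x k : ℚ) = (1 : Matrix _ _ ℚ) i k * (x k : ℚ) := by
      intro k hk
      rw [show M i k = (1 : Matrix _ _ ℚ) i k from
        Matrix.updateCol_ne (Finset.ne_of_mem_erase hk)]
    rw [Finset.sum_congr rfl h1, show M i j = (v' i : ℚ) / p from Matrix.updateCol_self]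
    have h2 : ∑ k ∈ Finset.univ.erase j, (1 : Matrix (Fin n) (Fin n) ℚ) i k * (x k : ℚ) =
        (x i : ℚ) - (1 : Matrix (Fin n) (Fin n) ℚ) i j * x j := by
      have h3 : ∑ k, (1 : Matrix (Fin n) (Fin n) ℚ) i k * (x k : ℚ) = x i := by
        have := congrFun (Matrix.one_mulVec (fun i => (x i : ℚ))) i
        simpa [Matrix.mulVec, dotProduct] using this
      rw [← h3, ← Finset.add_sum_erase _ _ (Finset.mem_univ j)]
      ring
    rw [h2]
    simp only [Pi.add_apply, Pi.sub_apply, Pi.smul_apply, smul_eq_mul, Matrix.one_apply,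
      Pi.single_apply]
    push_cast
    by_cases hij : i = j
    · simp [hij]; ring
    · simp [hij]; ring
  have hint : ∀ x : Fin n → ℤ, ∃ z : ℤ, (1 : ℚ) * qf A (M.mulVec fun i => (x i : ℚ)) = z := by
    intro x
    set y : Fin n → ℤ := x - x j • (Pi.single j 1 : Fin n → ℤ) with hy
    obtain ⟨b, hb⟩ := hbv' y
    refine ⟨qf A y + x j ^ 2 * a + x j * b, ?_⟩
    rw [hMx, qf_add, qf_smul, bf_smul_right, ← cast_qf, ← cast_qf, ← cast_bf, ha, hb]
    push_cast
    field_simp
    rw [← hy]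
  have h1 := hmin M 1 (by rw [hMdet]; positivity) one_ne_zero hint
  rw [hMdet] at h1
  simp only [abs_one, one_pow, one_mul, one_div, inv_pow] at h1
  have h2 : (1 : ℚ) < (p : ℚ) ^ 2 := by
    have : (1 : ℚ) < p := by exact_mod_cast hp.out.one_lt
    nlinarith
  have h3 : ((p : ℚ) ^ 2)⁻¹ < 1 := inv_lt_one_of_one_lt₀ h2
  linarith

/-- The matrix of a basis of the lattice of integer vectors whose reduction lies in `U`. -/
theorem exists_lattice_matrix (U : Submodule (ZMod p) (Fin n → ZMod p)) :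
    ∃ M : Matrix (Fin n) (Fin n) ℤ, M.det.natAbs = p ^ (n - Module.finrank (ZMod p) U) ∧
      ∀ x : Fin n → ℤ, (fun i => ((M.mulVec x) i : ZMod p)) ∈ U := by
  classical
  let red : (Fin n → ℤ) →ₗ[ℤ] (Fin n → ZMod p) :=
    { toFun := fun x i => (x i : ZMod p)
      map_add' := fun x y => by ext i; simp
      map_smul' := fun c x => by ext i; simp }
  have hred : Function.Surjective red := by
    intro y
    refine ⟨fun i => ((y i).val : ℤ), ?_⟩
    ext i
    show (((y i).val : ℤ) : ZMod p) = y i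
    simp
  let L : Submodule ℤ (Fin n → ℤ) := (U.restrictScalars ℤ).comap red
  have hfin : Module.finrank ℤ L = n := by
    apply le_antisymm
    · have := Submodule.finrank_le L
      simpa using this
    · let f : (Fin n → ℤ) →ₗ[ℤ] L :=
        { toFun := fun x => ⟨(p : ℤ) • x, by
            show red ((p : ℤ) • x) ∈ U
            have : red ((p : ℤ) • x) = 0 := by
              ext i
              show (((p : ℤ) • x) i : ZMod p) = 0
              simp
            rw [this]; exact U.zero_mem⟩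
          map_add' := fun x y => by ext i; simp [mul_add]
          map_smul' := fun c x => by ext i; simp; ring }
      have hf : Function.Injective f := by
        intro x y hxy
        have h1 := congrArg Subtype.val hxy
        have h2 : (p : ℤ) • x = (p : ℤ) • y := h1
        ext i
        have h3 := congrFun h2 i
        simp only [Pi.smul_apply, smul_eq_mul] at h3
        exact mul_left_cancel₀ (by exact_mod_cast hp.out.ne_zero) h3
      have := LinearMap.finrank_le_finrank_of_injective hf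
      simpa using this
  let bN : Module.Basis (Fin n) ℤ L := Module.finBasisOfFinrankEq ℤ L hfin
  have hdet := Submodule.natAbs_det_basis_change (Pi.basisFun ℤ (Fin n)) L bN
  have hcard : Nat.card ((Fin n → ℤ) ⧸ L) = p ^ (n - Module.finrank (ZMod p) U) := by
    let q : (Fin n → ZMod p) →ₗ[ℤ] ((Fin n → ZMod p) ⧸ U) := U.mkQ.restrictScalars ℤ
    have hq : Function.Surjective (q.comp red) := (Submodule.mkQ_surjective U).comp hred
    have hker : LinearMap.ker (q.comp red) = L := by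
      ext x
      rw [LinearMap.mem_ker]
      show Submodule.Quotient.mk (p := U) (red x) = 0 ↔ red x ∈ U
      exact Submodule.Quotient.mk_eq_zero U
    have e := (q.comp red).quotKerEquivOfSurjective hq
    rw [hker] at e
    rw [Nat.card_congr e.toEquiv, Module.natCard_eq_pow_finrank (K := ZMod p), Nat.card_zmod]
    congr 1
    have h1 := Submodule.finrank_quotient_add_finrank U
    rw [Module.finrank_fintype_fun_eq_card, Fintype.card_fin] at h1
    omega
  refine ⟨Matrix.of fun i j => (bN j : Fin n → ℤ) i, ?_, ?_⟩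
  · rw [← hcard, ← hdet, Pi.basisFun_det, ← Matrix.det_transpose]
    rfl
  · intro x
    have h1 : (Matrix.of fun i j => (bN j : Fin n → ℤ) i).mulVec x =
        ((∑ j, x j • bN j : L) : Fin n → ℤ) := by
      ext i
      simp [Matrix.mulVec, dotProduct, mul_comm]
    rw [h1]
    exact (∑ j, x j • bN j : L).2

/-- For a minimal representative in an odd number of variables, every totally singular subspace
modulo `p` has dimension less than half the number of variables. -/
theorem small_singular_of_minimal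
    (hmin : ∀ (M : Matrix (Fin n) (Fin n) ℚ) (c : ℚ), M.det ≠ 0 → c ≠ 0 →
      (∀ x : Fin n → ℤ, ∃ z : ℤ, c * qf A (M.mulVec fun i => (x i : ℚ)) = z) →
      1 ≤ |c| ^ n * M.det ^ 2)
    (U : Submodule (ZMod p) (Fin n → ZMod p)) (hU : ∀ u ∈ U, qf A u = 0) :
    2 * Module.finrank (ZMod p) U ≤ n := by
  by_contra hcon
  push Not at hcon
  have hp0 : (p : ℚ) ≠ 0 := by exact_mod_cast hp.out.ne_zero
  obtain ⟨M, hMdet, hM⟩ := exists_lattice_matrix U
  have hint : ∀ x : Fin n → ℤ, ∃ z : ℤ, (1 / p : ℚ) *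
      qf A ((M.map (Int.cast : ℤ → ℚ)).mulVec fun i => (x i : ℚ)) = z := by
    intro x
    have h1 : (M.map (Int.cast : ℤ → ℚ)).mulVec (fun i => (x i : ℚ)) =
        fun i => ((M.mulVec x i : ℤ) : ℚ) := by
      ext i
      simp [Matrix.mulVec, dotProduct]
    rw [h1, ← cast_qf]
    have h2 : (p : ℤ) ∣ qf A (M.mulVec x) := by
      rw [← ZMod.intCast_zmod_eq_zero_iff_dvd, cast_qf]
      exact hU _ (hM x)
    obtain ⟨z, hz⟩ := h2
    refine ⟨z, ?_⟩
    rw [hz]
    push_cast
    field_simp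
  have hdet0 : (M.map (Int.cast : ℤ → ℚ)).det ≠ 0 := by
    rw [map_det]
    intro h
    have h1 : M.det = 0 := by exact_mod_cast h
    rw [h1] at hMdet
    have h2 : p ^ (n - Module.finrank (ZMod p) U) ≠ 0 := pow_ne_zero _ hp.out.ne_zero
    exact h2 hMdet.symm
  have h1 := hmin _ (1 / p) hdet0 (by positivity) hint
  have h2 : (M.map (Int.cast : ℤ → ℚ)).det ^ 2 =
      (p : ℚ) ^ (2 * (n - Module.finrank (ZMod p) U)) := by
    rw [map_det, ← sq_abs, ← Int.cast_abs, Int.abs_eq_natAbs, hMdet]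
    push_cast
    rw [← pow_mul, mul_comm]
  rw [h2, abs_of_nonneg (by positivity)] at h1
  have h3 : (1 : ℚ) < p := by exact_mod_cast hp.out.one_lt
  have hle : Module.finrank (ZMod p) U ≤ n := by
    have := Submodule.finrank_le U
    rwa [Module.finrank_fintype_fun_eq_card, Fintype.card_fin] at this
  have h4 : (p : ℚ) ^ (2 * (n - Module.finrank (ZMod p) U)) < (p : ℚ) ^ n :=
    pow_lt_pow_right₀ h3 (by omega)
  have h5 : (1 / (p : ℚ)) ^ n * (p : ℚ) ^ (2 * (n - Module.finrank (ZMod p) U)) <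
      (1 / (p : ℚ)) ^ n * (p : ℚ) ^ n := mul_lt_mul_of_pos_left h4 (by positivity)
  rw [← mul_pow, one_div, inv_mul_cancel₀ hp0, one_pow] at h5
  rw [one_div] at h1
  linarith

end Moves

/-- **Existence of good integral models.** Every nondegenerate quadratic form over `ℚ` in an odd
number of variables is, up to a scalar and a rational change of coordinates, given by an integral
form which is good at all primes. -/
theorem exists_good (hn : Odd n) (S : Matrix (Fin n) (Fin n) ℚ) (hS : (S + Sᵀ).det ≠ 0) :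
    ∃ A, Rep S A ∧ (A + Aᵀ).det ≠ 0 ∧ ∀ p : ℕ, p.Prime → Good A p := by
  obtain ⟨A, hA, hmin⟩ := exists_minimal S hS
  refine ⟨A, hA, hA.det_ne_zero hS, fun p hp => ?_⟩
  have : Fact p.Prime := ⟨hp⟩
  refine ⟨fun w hw hw0 w' hw' => ?_, fun v => prim_of_minimal hmin v⟩
  by_contra hcon
  push Not at hcon
  obtain ⟨U, hU, hlt⟩ := exists_large_singular A p (by simpa using hn) w w' hw hw0 hw' hcon
  have := small_singular_of_minimal hmin U hU
  rw [Fintype.card_fin] at hlt
  omega

end Pool.Agent.H97
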