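import Mathlib

set_option autoImplicit false
open AlgebraicGeometry CategoryTheory TopologicalSpace

namespace Pool.Agent.H97

section GradedDomain

variable {A : Type} [CommRing A] [IsDomain A] (𝒜 : ℕ → Submodule ℤ A) [GradedAlgebra 𝒜]

/-- The generic point of `Proj` of a graded domain with a nonzero element of positive degree. -/
noncomputable def genPt {n : ℕ} (hn : 0 < n) (x : A) (hx : x ∈ 𝒜 n) (hx0 : x ≠ 0) : Proj 𝒜 :=
  (⟨⊥, by simpa using Ideal.isPrime_bot, by
    intro h
    have h1 : x ∈ HomogeneousIdeal.irrelevant 𝒜 := by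
      rw [HomogeneousIdeal.mem_irrelevant_iff]
      rw [GradedRing.proj_apply, DirectSum.decompose_of_mem_ne 𝒜 hx hn.ne']
    have h2 := h h1
    have h3 : x ∈ (⊥ : HomogeneousIdeal 𝒜).toIdeal := h2
    rw [HomogeneousIdeal.toIdeal_bot] at h3
    exact hx0 (by simpa using h3)⟩ : ProjectiveSpectrum 𝒜)

theorem irreducibleSpace_proj {n : ℕ} (hn : 0 < n) (x : A) (hx : x ∈ 𝒜 n) (hx0 : x ≠ 0) :
    IrreducibleSpace (Proj 𝒜) := by
  have hcl : closure ({genPt 𝒜 hn x hx hx0} : Set (Proj 𝒜)) = Set.univ := by
    rw [Set.eq_univ_iff_forall]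
    intro y
    refine (mem_closure_iff (X := ProjectiveSpectrum 𝒜)).mpr ?_
    intro U hU hyU
    obtain ⟨_, ⟨f, rfl⟩, hy, hfU⟩ :=
      (ProjectiveSpectrum.isTopologicalBasis_basic_opens 𝒜).exists_subset_of_mem_open hyU hU
    refine ⟨genPt 𝒜 hn x hx hx0, hfU ?_, rfl⟩
    have hf : f ≠ 0 := by
      rintro rfl
      exact hy (Submodule.zero_mem _)
    intro hmem
    apply hf
    have h3 : f ∈ (⊥ : HomogeneousIdeal 𝒜).toIdeal := hmem
    rw [HomogeneousIdeal.toIdeal_bot] at h3
    simpa using h3
  rw [irreducibleSpace_def]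
  have := (isIrreducible_singleton (x := genPt 𝒜 hn x hx hx0)).closure
  rwa [hcl] at this

instance isReduced_away (f : A) : _root_.IsReduced (HomogeneousLocalization.Away 𝒜 f) := by
  refine isReduced_of_injective
    (algebraMap (HomogeneousLocalization.Away 𝒜 f) (Localization.Away f)) ?_
  exact HomogeneousLocalization.val_injective _

theorem isReduced_proj : AlgebraicGeometry.IsReduced (Proj 𝒜) := by
  have : ∀ i, AlgebraicGeometry.IsReduced ((Proj.affineOpenCover 𝒜).openCover.X i) := by
    intro i
    refine (affine_isReduced_iff _).mpr ?_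
    exact isReduced_away 𝒜 (i.2 : A)
  exact IsReduced.of_openCover (Proj 𝒜) (Proj.affineOpenCover 𝒜).openCover

theorem isIntegral_proj {n : ℕ} (hn : 0 < n) (x : A) (hx : x ∈ 𝒜 n) (hx0 : x ≠ 0) :
    AlgebraicGeometry.IsIntegral (Proj 𝒜) := by
  have := irreducibleSpace_proj 𝒜 hn x hx hx0
  have := isReduced_proj 𝒜
  exact isIntegral_of_irreducibleSpace_of_isReduced _

omit [IsDomain A] in
/-- Regularity of all stalks of `Proj` follows from regularity of all localizations at primes of
the degree zero rings `A_(x i)` of a generating family. -/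
theorem regular_stalk_proj {ι : Type} (x : ι → A) (d : ι → ℕ) (hd : ∀ i, 0 < d i)
    (hx : ∀ i, x i ∈ 𝒜 (d i)) (hgen : Algebra.adjoin (𝒜 0) (Set.range x) = ⊤)
    (hreg : ∀ i, ∀ (P : Ideal (HomogeneousLocalization.Away 𝒜 (x i))) [P.IsPrime],
      IsRegularLocalRing (Localization.AtPrime P)) (y : Proj 𝒜) :
    IsRegularLocalRing ((Proj 𝒜).presheaf.stalk y) := by
  have hy : y ∈ (⊤ : (Proj 𝒜).Opens) := trivial
  rw [← Proj.iSup_basicOpen_eq_top' 𝒜 x (fun i => ⟨_, hx i⟩) hgen, Opens.mem_iSup] at hy
  obtain ⟨i, hi⟩ := hy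
  rw [← Proj.opensRange_awayι 𝒜 (x i) (hx i) (hd i)] at hi
  obtain ⟨z, rfl⟩ := hi
  let f := Proj.awayι 𝒜 (x i) (hx i) (hd i)
  have e1 : ((Proj 𝒜).presheaf.stalk (f z)) ≃+*
      ((Spec (.of (HomogeneousLocalization.Away 𝒜 (x i)))).presheaf.stalk z) :=
    (asIso (f.stalkMap z)).commRingCatIsoToRingEquiv
  let z' : PrimeSpectrum (HomogeneousLocalization.Away 𝒜 (x i)) := z
  let e2 := (Spec.stalkIso (.of (HomogeneousLocalization.Away 𝒜 (x i))) z').commRingCatIsoToRingEquiv
  have := hreg i z'.asIdeal
  exact IsRegularLocalRing.of_ringEquiv (e2.symm.trans e1.symm)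

/-- `Proj` of a graded domain, generated by finitely many homogeneous elements of positive degree
over its degree zero part, which is a quotient of `ℤ`: it is an integral scheme, proper over
`Spec ℤ`, regular if all the degree zero localizations are, and its function field is the field of
fractions of any chart. -/
theorem exists_model_of_graded {ι : Type} [Finite ι] (x : ι → A) (d : ι → ℕ) (hd : ∀ i, 0 < d i)
    (hx : ∀ i, x i ∈ 𝒜 (d i)) (hgen : Algebra.adjoin (𝒜 0) (Set.range x) = ⊤)
    (hz : Function.Surjective (algebraMap ℤ (𝒜 0)))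
    (hreg : ∀ i, ∀ (P : Ideal (HomogeneousLocalization.Away 𝒜 (x i))) [P.IsPrime],
      IsRegularLocalRing (Localization.AtPrime P))
    (i₀ : ι) (hi₀ : x i₀ ≠ 0) (K : Type) [Field K]
    [Algebra (HomogeneousLocalization.Away 𝒜 (x i₀)) K]
    [IsFractionRing (HomogeneousLocalization.Away 𝒜 (x i₀)) K] :
    ∃ (X' : Scheme.{0}) (_ : AlgebraicGeometry.IsIntegral X') (g : X' ⟶ Spec (CommRingCat.of ℤ)),
        IsProper g ∧
        (∀ y : X', IsRegularLocalRing (X'.presheaf.stalk y)) ∧
        Nonempty (X'.functionField ≃+* K) := by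
  have hint := isIntegral_proj 𝒜 (hd i₀) (x i₀) (hx i₀) hi₀
  refine ⟨Proj 𝒜, hint,
    Proj.toSpecZero 𝒜 ≫ Spec.map (CommRingCat.ofHom (algebraMap ℤ (𝒜 0))), ?_, ?_, ?_⟩
  · have hft : Algebra.FiniteType (𝒜 0) A := by
      refine ⟨⟨(Set.finite_range x).toFinset, ?_⟩⟩
      simpa using hgen
    have h1 : IsClosedImmersion (Spec.map (CommRingCat.ofHom (algebraMap ℤ (𝒜 0)))) :=
      IsClosedImmersion.spec_of_surjective _ hz
    infer_instance
  · exact fun y => regular_stalk_proj 𝒜 x d hd hx hgen hreg y
  · let U : (Proj 𝒜).Opens := Proj.basicOpen 𝒜 (x i₀)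
    have hU : IsAffineOpen U := Proj.isAffineOpen_basicOpen 𝒜 (x i₀) (hx i₀) (hd i₀)
    have hne : Nonempty U := by
      refine ⟨⟨genPt 𝒜 (hd i₀) (x i₀) (hx i₀) hi₀, ?_⟩⟩
      intro hmem
      apply hi₀
      have h3 : x i₀ ∈ (⊥ : HomogeneousIdeal 𝒜).toIdeal := hmem
      rw [HomogeneousIdeal.toIdeal_bot] at h3
      simpa using h3
    have hfr := functionField_isFractionRing_of_isAffineOpen (Proj 𝒜) U hU
    let e : HomogeneousLocalization.Away 𝒜 (x i₀) ≃+* Γ(Proj 𝒜, U) :=
      (Proj.basicOpenIsoAway 𝒜 (x i₀) (hx i₀) (hd i₀)).commRingCatIsoToRingEquiv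
    exact ⟨(IsFractionRing.ringEquivOfRingEquiv e (K := K) (L := (Proj 𝒜).functionField)).symm⟩

end GradedDomain

section Concrete

open Polynomial

variable {K : Type} [Field K] {ι : Type} (g : ι → K)

/-- The graded ring `ℤ[g_i T : i] ⊆ K[T]`. -/
noncomputable def homRing : Subalgebra ℤ K[X] := Algebra.adjoin ℤ (Set.range fun i => C (g i) * X)

/-- The degree `n` part of `ℤ[g_i T : i]`. -/
noncomputable def homPart (n : ℕ) : Submodule ℤ (homRing g) where
  carrier := {b | ∃ c : K, (b : K[X]) = monomial n c}
  add_mem' := by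
    rintro a b ⟨c, hc⟩ ⟨d, hd⟩
    exact ⟨c + d, by simp [hc, hd]⟩
  zero_mem' := ⟨0, by simp⟩
  smul_mem' := by
    rintro r b ⟨c, hc⟩
    exact ⟨r • c, by rw [Subalgebra.coe_smul, hc, Polynomial.smul_monomial]⟩

theorem mem_homPart {n : ℕ} {b : homRing g} : b ∈ homPart g n ↔ ∃ c : K, (b : K[X]) = monomial n c :=
  Iff.rfl

theorem monomial_coeff_mem {b : K[X]} (hb : b ∈ homRing g) (n : ℕ) :
    monomial n (b.coeff n) ∈ homRing g := by
  unfold homRing at hb
  induction hb using Algebra.adjoin_induction generalizing n with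
  | mem x hx =>
    obtain ⟨i, rfl⟩ := hx
    by_cases hn : n = 1
    · subst hn
      have : (monomial 1 ((C (g i) * X : K[X]).coeff 1) : K[X]) = C (g i) * X := by
        rw [coeff_C_mul, coeff_X_one, mul_one, C_mul_X_eq_monomial]
      rw [this]
      exact Algebra.subset_adjoin ⟨i, rfl⟩
    · have : (monomial n ((C (g i) * X : K[X]).coeff n) : K[X]) = 0 := by
        rw [coeff_C_mul, coeff_X_of_ne_one hn, mul_zero, monomial_zero_right]
      rw [this]
      exact Subalgebra.zero_mem _
  | algebraMap r =>
    by_cases hn : n = 0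
    · subst hn
      have : (monomial 0 ((algebraMap ℤ K[X] r).coeff 0) : K[X]) = algebraMap ℤ K[X] r := by
        simp
      rw [this]
      exact Subalgebra.algebraMap_mem _ _
    · have : (monomial n ((algebraMap ℤ K[X] r).coeff n) : K[X]) = 0 := by
        have h0 : (algebraMap ℤ K[X] r).coeff n = 0 := by
          have h1 : algebraMap ℤ K[X] r = C (r : K) := by simp
          rw [h1, coeff_C_of_ne_zero hn]
        rw [h0, monomial_zero_right]
      rw [this]
      exact Subalgebra.zero_mem _
  | add x y _ _ hx hy =>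
    rw [coeff_add, map_add]
    exact Subalgebra.add_mem _ (hx n) (hy n)
  | mul x y _ _ hx hy =>
    rw [coeff_mul, map_sum]
    refine Subalgebra.sum_mem _ fun p hp => ?_
    rw [Finset.HasAntidiagonal.mem_antidiagonal] at hp
    rw [← hp, ← monomial_mul_monomial]
    exact Subalgebra.mul_mem _ (hx _) (hy _)

/-- The degree `n` component of an element of `ℤ[g_i T : i]`. -/
noncomputable def component (b : homRing g) (n : ℕ) : homPart g n :=
  ⟨⟨monomial n ((b : K[X]).coeff n), monomial_coeff_mem g b.2 n⟩, ⟨_, rfl⟩⟩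

theorem mk_component_apply (b : homRing g) (n : ℕ) : (DirectSum.mk (fun n => homPart g n)
    (b : K[X]).support fun n => component g b n) n = component g b n := by
  by_cases hn : n ∈ (b : K[X]).support
  · rw [DirectSum.mk_apply_of_mem hn]
  · rw [DirectSum.mk_apply_of_notMem hn]
    apply Subtype.ext
    apply Subtype.ext
    rw [notMem_support_iff] at hn
    simp [component, hn]

/-- Decomposition of an element of `ℤ[g_i T : i]` into its homogeneous components. -/
noncomputable def decomposeHom : homRing g →+ DirectSum ℕ fun n => homPart g n where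
  toFun b := DirectSum.mk (fun n => homPart g n) (b : K[X]).support fun n => component g b n
  map_zero' := by
    refine DFinsupp.ext fun n => ?_
    refine (mk_component_apply g 0 n).trans ?_
    apply Subtype.ext
    apply Subtype.ext
    simp [component]
  map_add' a b := by
    refine DFinsupp.ext fun n => ?_
    rw [DirectSum.add_apply]
    erw [mk_component_apply, mk_component_apply, mk_component_apply]
    apply Subtype.ext
    apply Subtype.ext
    simp [component]

theorem decomposeHom_apply (b : homRing g) (n : ℕ) : decomposeHom g b n = component g b n :=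
  mk_component_apply g b n

theorem coeff_coeAddMonoidHom (x : DirectSum ℕ fun n => homPart g n) (m : ℕ) :
    ((DirectSum.coeAddMonoidHom (homPart g) x : homRing g) : K[X]).coeff m =
      (((x m : homPart g m) : homRing g) : K[X]).coeff m := by
  induction x using DirectSum.induction_on with
  | zero => simp
  | of i y =>
    rw [DirectSum.coeAddMonoidHom_of]
    by_cases h : i = m
    · subst h
      rw [DirectSum.of_eq_same]
    · rw [DirectSum.of_eq_of_ne _ _ _ (Ne.symm h)]
      obtain ⟨c, hc⟩ := y.2
      rw [hc, coeff_monomial, if_neg h]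
      simp
  | add x y hx hy =>
    rw [map_add, Subalgebra.coe_add, coeff_add, hx, hy, DirectSum.add_apply]
    simp

noncomputable instance : DirectSum.Decomposition (homPart g) := by
  refine DirectSum.Decomposition.ofAddHom _ (decomposeHom g) ?_ ?_
  · ext b m
    show ((DirectSum.coeAddMonoidHom (homPart g) (decomposeHom g b) : homRing g) : K[X]).coeff m =
      (b : K[X]).coeff m
    rw [coeff_coeAddMonoidHom, decomposeHom_apply]
    simp [component]
  · refine AddMonoidHom.ext fun x => DFinsupp.ext fun m => ?_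
    show decomposeHom g (DirectSum.coeAddMonoidHom (homPart g) x) m = x m
    rw [decomposeHom_apply]
    apply Subtype.ext
    apply Subtype.ext
    show monomial m (((DirectSum.coeAddMonoidHom (homPart g) x : homRing g) : K[X]).coeff m) = _
    rw [coeff_coeAddMonoidHom]
    obtain ⟨c, hc⟩ := (x m).2
    rw [hc, coeff_monomial_same]

instance : SetLike.GradedMonoid (homPart g) where
  one_mem := ⟨1, by simp⟩
  mul_mem := by
    rintro i j a b ⟨c, hc⟩ ⟨d, hd⟩
    exact ⟨c * d, by rw [Subalgebra.coe_mul, hc, hd, monomial_mul_monomial]⟩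

noncomputable instance gradedHomRing : GradedAlgebra (homPart g) where

/-- The generator `g_i T`. -/
noncomputable def gen (i : ι) : homRing g := ⟨C (g i) * X, Algebra.subset_adjoin ⟨i, rfl⟩⟩

theorem gen_mem (i : ι) : gen g i ∈ homPart g 1 := ⟨g i, C_mul_X_eq_monomial⟩

theorem surjective_zero : Function.Surjective (algebraMap ℤ (homPart g 0)) := by
  rintro ⟨⟨b, hb⟩, c, hc⟩
  have key : ∀ b ∈ homRing g, ∃ r : ℤ, b.coeff 0 = (r : K) := by
    intro b hb
    unfold homRing at hb
    induction hb using Algebra.adjoin_induction with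
    | mem x hx =>
      obtain ⟨i, rfl⟩ := hx
      exact ⟨0, by simp⟩
    | algebraMap r => exact ⟨r, by simp⟩
    | add x y _ _ hx hy =>
      obtain ⟨r, hr⟩ := hx
      obtain ⟨s, hs⟩ := hy
      exact ⟨r + s, by simp [hr, hs]⟩
    | mul x y _ _ hx hy =>
      obtain ⟨r, hr⟩ := hx
      obtain ⟨s, hs⟩ := hy
      exact ⟨r * s, by simp [mul_coeff_zero, hr, hs]⟩
  obtain ⟨r, hr⟩ := key b hb
  refine ⟨r, ?_⟩
  apply Subtype.ext
  apply Subtype.ext
  have hc' : b = monomial 0 c := hc
  show ((algebraMap ℤ (homPart g 0) r : homRing g) : K[X]) = b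
  have h1 : ((algebraMap (homPart g 0) (homRing g)).comp (algebraMap ℤ (homPart g 0))) r =
    (r : homRing g) := by simp
  have h2 : (algebraMap ℤ (homPart g 0) r : homRing g) = (r : homRing g) := h1
  rw [hc'] at hr ⊢
  rw [coeff_monomial_same] at hr
  rw [h2, hr]
  simp

theorem adjoin_gen : Algebra.adjoin (homPart g 0) (Set.range (gen g)) = ⊤ := by
  rw [eq_top_iff]
  rintro ⟨b, hb⟩ -
  unfold homRing at hb
  induction hb using Algebra.adjoin_induction with
  | mem x hx =>
    obtain ⟨i, rfl⟩ := hx
    exact Algebra.subset_adjoin ⟨i, rfl⟩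
  | algebraMap r =>
    have h : (⟨algebraMap ℤ K[X] r, Subalgebra.algebraMap_mem _ r⟩ : homRing g) =
      algebraMap (homPart g 0) (homRing g) (algebraMap ℤ (homPart g 0) r) := by
      apply Subtype.ext
      simp
    erw [h]
    exact Subalgebra.algebraMap_mem _ _
  | add x y hx' hy' hx hy =>
    have h : (⟨x + y, Subalgebra.add_mem _ hx' hy'⟩ : homRing g) = ⟨x, hx'⟩ + ⟨y, hy'⟩ := rfl
    have h2 := Subalgebra.add_mem _ hx hy
    rw [← h] at h2
    exact h2
  | mul x y hx' hy' hx hy =>
    have h : (⟨x * y, Subalgebra.mul_mem _ hx' hy'⟩ : homRing g) = ⟨x, hx'⟩ * ⟨y, hy'⟩ := rfl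
    have h2 := Subalgebra.mul_mem _ hx hy
    rw [← h] at h2
    exact h2

/-- Evaluation at `T = 1 / g i`. -/
noncomputable def evalHom (i : ι) : homRing g →+* K :=
  (Polynomial.evalRingHom (g i)⁻¹).comp (homRing g).val.toRingHom

theorem evalHom_apply (i : ι) (b : homRing g) : evalHom g i b = (b : K[X]).eval (g i)⁻¹ := rfl

theorem evalHom_gen (i j : ι) : evalHom g i (gen g j) = g j / g i := by
  rw [evalHom_apply]
  simp [gen, div_eq_mul_inv]

theorem evalHom_gen_self {i : ι} (hi : g i ≠ 0) : evalHom g i (gen g i) = 1 := by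
  rw [evalHom_gen, div_self hi]

/-- The chart map `ℤ[g_j T : j]_(g_i T) → K`. -/
noncomputable def chartMap {i : ι} (hi : g i ≠ 0) :
    HomogeneousLocalization.Away (homPart g) (gen g i) →+* K :=
  (IsLocalization.Away.lift (S := Localization.Away (gen g i)) (gen g i) (g := evalHom g i)
    (by rw [evalHom_gen_self g hi]; exact isUnit_one)).comp
    (algebraMap (HomogeneousLocalization.Away (homPart g) (gen g i))
      (Localization.Away (gen g i)))

theorem chartMap_mk {i : ι} (hi : g i ≠ 0) (n : ℕ) (b : homRing g) (hb : b ∈ homPart g (n • 1)) :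
    chartMap g hi (HomogeneousLocalization.Away.mk (homPart g) (gen_mem g i) n b hb) =
      evalHom g i b := by
  rw [chartMap, RingHom.comp_apply, HomogeneousLocalization.algebraMap_apply,
    HomogeneousLocalization.Away.val_mk, Localization.mk_eq_mk', IsLocalization.Away.lift,
    IsLocalization.lift_mk'_spec]
  simp [evalHom_gen_self g hi]

theorem chartMap_injective {i : ι} (hi : g i ≠ 0) : Function.Injective (chartMap g hi) := by
  rw [injective_iff_map_eq_zero]
  intro z hz
  obtain ⟨n, b, hb, rfl⟩ := HomogeneousLocalization.Away.mk_surjective (homPart g) (gen_mem g i) z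
  rw [chartMap_mk, evalHom_apply] at hz
  obtain ⟨c, hc⟩ := (mem_homPart g).mp hb
  rw [hc, eval_monomial] at hz
  have hc0 : c = 0 := by
    rcases mul_eq_zero.mp hz with h | h
    · exact h
    · exact absurd h (pow_ne_zero _ (inv_ne_zero hi))
  have hb0 : b = 0 := by
    apply Subtype.ext
    rw [hc, hc0]
    simp
  apply HomogeneousLocalization.val_injective
  rw [HomogeneousLocalization.Away.val_mk, hb0, Localization.mk_zero, HomogeneousLocalization.val_zero]

/-- The affine chart ring `ℤ[g_j / g_i : j] ⊆ K`. -/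
noncomputable def chartRing (i : ι) : Subalgebra ℤ K :=
  Algebra.adjoin ℤ (Set.range fun j => g j / g i)

theorem evalHom_mem (i : ι) (b : homRing g) : evalHom g i b ∈ chartRing g i := by
  obtain ⟨b, hb⟩ := b
  rw [evalHom_apply]
  show b.eval (g i)⁻¹ ∈ _
  unfold homRing at hb
  induction hb using Algebra.adjoin_induction with
  | mem x hx =>
    obtain ⟨j, rfl⟩ := hx
    refine Algebra.subset_adjoin ⟨j, ?_⟩
    simp [div_eq_mul_inv]
  | algebraMap r =>
    have : (algebraMap ℤ K[X] r).eval (g i)⁻¹ = algebraMap ℤ K r := by simp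
    rw [this]
    exact Subalgebra.algebraMap_mem _ _
  | add x y _ _ hx hy =>
    rw [eval_add]; exact Subalgebra.add_mem _ hx hy
  | mul x y _ _ hx hy =>
    rw [eval_mul]; exact Subalgebra.mul_mem _ hx hy

theorem chartMap_range {i : ι} (hi : g i ≠ 0) :
    (chartMap g hi).range = (chartRing g i).toSubring := by
  apply le_antisymm
  · rintro _ ⟨z, rfl⟩
    obtain ⟨n, b, hb, rfl⟩ := HomogeneousLocalization.Away.mk_surjective (homPart g) (gen_mem g i) z
    rw [chartMap_mk]
    exact evalHom_mem g i b
  · intro x hx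
    have hx' : x ∈ chartRing g i := hx
    unfold chartRing at hx'
    clear hx
    induction hx' using Algebra.adjoin_induction with
    | mem x hx =>
      obtain ⟨j, rfl⟩ := hx
      refine ⟨HomogeneousLocalization.Away.mk (homPart g) (gen_mem g i) 1 (gen g j)
        (by simpa using gen_mem g j), ?_⟩
      rw [chartMap_mk, evalHom_gen]
    | algebraMap r => exact ⟨(r : _), by simp⟩
    | add x y _ _ hx hy => exact Subring.add_mem _ hx hy
    | mul x y _ _ hx hy => exact Subring.mul_mem _ hx hy

/-- The affine chart of the projective model is `ℤ[g_j / g_i : j]`. -/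
noncomputable def chartEquiv {i : ι} (hi : g i ≠ 0) :
    HomogeneousLocalization.Away (homPart g) (gen g i) ≃+* chartRing g i :=
  (RingEquiv.ofLeftInverse (f := chartMap g hi)
    (Function.leftInverse_invFun (chartMap_injective g hi))).trans
    (RingEquiv.subringCongr (chartMap_range g hi))

theorem chartEquiv_apply {i : ι} (hi : g i ≠ 0)
    (z : HomogeneousLocalization.Away (homPart g) (gen g i)) :
    (chartEquiv g hi z : K) = chartMap g hi z := rfl

/-- **Projective model lemma.** Let `K` be a field and `g : ι → K` a finite family of nonzero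
elements such that all the rings `ℤ[g_j / g_i : j]` are regular and `K` is the field of fractions
of one of them. Then `K` is the function field of a regular integral scheme, proper over `ℤ`. -/
theorem exists_projective_model [Finite ι] (hg : ∀ i, g i ≠ 0) (i₀ : ι)
    (hreg : ∀ i, IsRegularRing (chartRing g i)) (hfrac : IsFractionRing (chartRing g i₀) K) :
    ∃ (X' : Scheme.{0}) (_ : AlgebraicGeometry.IsIntegral X') (f : X' ⟶ Spec (CommRingCat.of ℤ)),
        IsProper f ∧
        (∀ y : X', IsRegularLocalRing (X'.presheaf.stalk y)) ∧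
        Nonempty (X'.functionField ≃+* K) := by
  let alg : Algebra (HomogeneousLocalization.Away (homPart g) (gen g i₀)) K :=
    (chartMap g (hg i₀)).toAlgebra
  have hfr : IsFractionRing (HomogeneousLocalization.Away (homPart g) (gen g i₀)) K := by
    have h1 := (IsFractionRing.isFractionRing_iff_of_base_ringEquiv (R := chartRing g i₀) (S := K)
      (chartEquiv g (hg i₀)).symm).mp hfrac
    have h2 : alg = ((algebraMap (chartRing g i₀) K).comp
        (chartEquiv g (hg i₀)).symm.symm.toRingHom).toAlgebra := by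
      apply Algebra.algebra_ext
      intro r
      rfl
    rw [h2]
    exact h1
  refine exists_model_of_graded (homPart g) (gen g) (fun _ => 1) (fun _ => one_pos) (gen_mem g)
    (adjoin_gen g) (surjective_zero g) ?_ i₀ ?_ K
  · intro i P hP
    have := hreg i
    have := IsRegularRing.of_ringEquiv (chartEquiv g (hg i)).symm
    infer_instance
  · intro h
    have h1 := evalHom_gen_self g (hg i₀)
    rw [h, map_zero] at h1
    exact zero_ne_one h1

/-- Projective model lemma, in the form of the frozen statement: regularity is expressed by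
equality of the dimension of the cotangent space with the Krull dimension. -/
theorem exists_projective_model' [Finite ι] (hg : ∀ i, g i ≠ 0) (i₀ : ι)
    (hreg : ∀ i, IsRegularRing (chartRing g i)) (hfrac : IsFractionRing (chartRing g i₀) K) :
    ∃ (X' : Scheme.{0}) (_ : AlgebraicGeometry.IsIntegral X') (f : X' ⟶ Spec (CommRingCat.of ℤ)),
        IsProper f ∧
        (∀ x : X',
          (((Module.finrank (IsLocalRing.ResidueField (X'.presheaf.stalk x))
              (IsLocalRing.CotangentSpace (X'.presheaf.stalk x)) : ℕ∞)) : WithBot ℕ∞)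
            = ringKrullDim (X'.presheaf.stalk x)) ∧
        Nonempty (X'.functionField ≃+* K) := by
  obtain ⟨X', h1, f, h2, h3, h4⟩ := exists_projective_model g hg i₀ hreg hfrac
  refine ⟨X', h1, f, h2, fun x => ?_, h4⟩
  have h5 := h3 x
  have h6 := (IsRegularLocalRing.iff_finrank_cotangentSpace (X'.presheaf.stalk x)).mp h5
  exact h6

end Concrete

end Pool.Agent.H97
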