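import Pool.Agent.H97.Lattice

set_option autoImplicit false

namespace Pool.Agent.H97

open MvPolynomial

section Hom

theorem aeval_mul_of_isHomogeneous {R K σ : Type*} [CommRing R] [CommRing K] [Algebra R K]
    {H : MvPolynomial σ R} {d : ℕ} (hH : H.IsHomogeneous d) (c : K) (x : σ → K) :
    aeval (fun i => c * x i) H = c ^ d * aeval x H := by
  rw [aeval_def, aeval_def, eval₂_eq, eval₂_eq, Finset.mul_sum]
  refine Finset.sum_congr rfl fun m hm => ?_
  have h1 : m.degree = d := by
    by_contra h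
    exact (mem_support_iff.mp hm) (hH.coeff_eq_zero h)
  have h2 : ∏ i ∈ m.support, (c * x i) ^ m i = c ^ d * ∏ i ∈ m.support, x i ^ m i := by
    have h1' : ∑ i ∈ m.support, m i = d := h1
    rw [← h1', ← Finset.prod_pow_eq_pow_sum, ← Finset.prod_mul_distrib]
    refine Finset.prod_congr rfl fun i _ => ?_
    rw [mul_pow]
  rw [h2]
  ring

theorem exists_homogenization {R T ι : Type*} [CommRing R] [CommRing T] [Algebra R T]
    (z : ι → T) (i : ι) (hz : z i = 1) (h : T) (hh : h ∈ Algebra.adjoin R (Set.range z)) :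
    ∃ (d : ℕ) (H : MvPolynomial ι R), H.IsHomogeneous d ∧ aeval z H = h := by
  induction hh using Algebra.adjoin_induction with
  | mem x hx =>
    obtain ⟨j, rfl⟩ := hx
    exact ⟨1, X j, isHomogeneous_X _ _, by simp⟩
  | algebraMap r => exact ⟨0, C r, isHomogeneous_C _ _, by simp⟩
  | add x y _ _ hx hy =>
    obtain ⟨d, H, hH, rfl⟩ := hx
    obtain ⟨e, G, hG, rfl⟩ := hy
    refine ⟨e + d, X i ^ e * H + X i ^ d * G, ?_, ?_⟩
    · refine IsHomogeneous.add ((isHomogeneous_X_pow i e).mul hH) ?_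
      rw [add_comm]
      exact (isHomogeneous_X_pow i d).mul hG
    · simp [hz]
  | mul x y _ _ hx hy =>
    obtain ⟨d, H, hH, rfl⟩ := hx
    obtain ⟨e, G, hG, rfl⟩ := hy
    exact ⟨d + e, H * G, hH.mul hG, by simp⟩

/-- The coordinate vector `(1, X₀, …, X_{n-1})`. -/
noncomputable def affVec (n : ℕ) (R : Type*) [CommRing R] : Fin (n + 1) → MvPolynomial (Fin n) R :=
  Fin.cons 1 X

theorem adjoin_affVec (n : ℕ) (R : Type*) [CommRing R] :
    Algebra.adjoin R (Set.range (affVec n R)) = ⊤ := by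
  rw [eq_top_iff, ← MvPolynomial.adjoin_range_X]
  apply Algebra.adjoin_mono
  rintro _ ⟨j, rfl⟩
  exact ⟨j.succ, by simp [affVec]⟩

theorem eq_zero_of_dehom {R : Type*} [CommRing R] [IsDomain R] {n d : ℕ}
    {H : MvPolynomial (Fin (n + 1)) R} (hH : H.IsHomogeneous d)
    (h0 : aeval (affVec n R) H = 0) : H = 0 := by
  let L := FractionRing (MvPolynomial (Fin (n + 1)) R)
  let x : Fin (n + 1) → L := fun i => algebraMap (MvPolynomial (Fin (n + 1)) R) L (X i)
  have hx0 : x 0 ≠ 0 := by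
    have hinj := IsFractionRing.injective (MvPolynomial (Fin (n + 1)) R) L
    intro h
    have : (X 0 : MvPolynomial (Fin (n + 1)) R) = 0 := hinj (by rw [map_zero]; exact h)
    exact X_ne_zero 0 this
  let ψ : MvPolynomial (Fin n) R →ₐ[R] L := aeval fun j => x j.succ / x 0
  have h1 : ∀ i, x 0 * ψ (affVec n R i) = x i := by
    intro i
    refine Fin.cases ?_ (fun j => ?_) i
    · simp [affVec]
    · simp only [affVec, Fin.cons_succ, ψ, aeval_X]
      rw [mul_comm, div_mul_cancel₀ _ hx0]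
  have h2 : aeval x H = x 0 ^ d * ψ (aeval (affVec n R) H) := by
    have h3 := aeval_mul_of_isHomogeneous hH (x 0) (fun i => ψ (affVec n R i))
    simp only [h1] at h3
    rw [h3]
    congr 1
    rw [← AlgHom.comp_apply, comp_aeval]
  rw [h0, map_zero, mul_zero] at h2
  have h3 : aeval x H = algebraMap (MvPolynomial (Fin (n + 1)) R) L H := by
    have h4 : (aeval x : MvPolynomial (Fin (n + 1)) R →ₐ[R] L) =
        IsScalarTower.toAlgHom R (MvPolynomial (Fin (n + 1)) R) L := by
      apply MvPolynomial.algHom_ext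
      intro i
      simp [x]
    rw [h4]
    rfl
  rw [h3] at h2
  exact (IsFractionRing.injective (MvPolynomial (Fin (n + 1)) R) L) (by rw [h2, map_zero])

theorem dvd_of_dvd_X_pow_mul {R σ : Type*} [CommRing R] [IsDomain R] (i : σ)
    {q : MvPolynomial σ R} (hq : ¬ (X i ∣ q)) (m : ℕ) {P : MvPolynomial σ R}
    (h : q ∣ X i ^ m * P) : q ∣ P := by
  induction m with
  | zero => simpa using h
  | succ m ih =>
    apply ih
    obtain ⟨B, hB⟩ := h
    have h1 : X i ∣ q * B := ⟨X i ^ m * P, by rw [← hB]; ring⟩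
    obtain ⟨B', rfl⟩ := (X_prime.dvd_or_dvd h1).resolve_left hq
    refine ⟨B', mul_left_cancel₀ (X_ne_zero (R := R) i) ?_⟩
    rw [← mul_assoc, ← pow_succ', hB]
    ring

end Hom

section Kernel

variable {n : ℕ}

/-- The homogeneous quadratic polynomial with coefficient matrix `S`. -/
noncomputable def qpoly (S : Matrix (Fin n) (Fin n) ℚ) : MvPolynomial (Fin n) ℚ :=
  ∑ i, ∑ j, C (S i j) * (X i * X j)

theorem aeval_qpoly {R : Type*} [CommRing R] [Algebra ℚ R] (S : Matrix (Fin n) (Fin n) ℚ)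
    (x : Fin n → R) : aeval x (qpoly S) = ∑ i, ∑ j, algebraMap ℚ R (S i j) * (x i * x j) := by
  simp [qpoly, map_sum]

theorem isHomogeneous_qpoly (S : Matrix (Fin n) (Fin n) ℚ) : (qpoly S).IsHomogeneous 2 := by
  refine IsHomogeneous.sum _ _ _ fun i _ => IsHomogeneous.sum _ _ _ fun j _ => ?_
  exact ((isHomogeneous_X _ i).mul (isHomogeneous_X _ j)).C_mul _

theorem two_mul_aeval_qpoly {R : Type*} [CommRing R] [Algebra ℚ R] (S : Matrix (Fin n) (Fin n) ℚ)
    (x : Fin n → R) : 2 * aeval x (qpoly S) =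
      x ⬝ᵥ ((S + S.transpose).map (algebraMap ℚ R)).mulVec x := by
  rw [aeval_qpoly]
  simp only [dotProduct, Matrix.mulVec, Matrix.map_apply, Matrix.add_apply, Matrix.transpose_apply,
    map_add, Finset.mul_sum]
  have h1 : ∀ i j, x i * ((algebraMap ℚ R (S i j) + algebraMap ℚ R (S j i)) * x j) =
      algebraMap ℚ R (S i j) * (x i * x j) + algebraMap ℚ R (S j i) * (x i * x j) := fun i j => by
    ring
  simp only [h1, Finset.sum_add_distrib]
  rw [Finset.sum_comm (f := fun i j => algebraMap ℚ R (S j i) * (x i * x j))]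
  simp only [← Finset.sum_add_distrib]
  refine Finset.sum_congr rfl fun i _ => Finset.sum_congr rfl fun j _ => ?_
  ring

theorem not_X_dvd_qpoly (S : Matrix (Fin (n + 1)) (Fin (n + 1)) ℚ) (hn : 2 ≤ n)
    (hdet : (S + S.transpose).det ≠ 0) : ¬ (X 0 ∣ qpoly S) := by
  rintro ⟨B, hB⟩
  have hval : ∀ v : Fin (n + 1) → ℚ, v 0 = 0 →
      v ⬝ᵥ (S + S.transpose).mulVec v = 0 := by
    intro v hv
    have h1 := two_mul_aeval_qpoly S v
    rw [hB, map_mul, aeval_X, hv, zero_mul, mul_zero] at h1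
    have h2 : (S + S.transpose).map (algebraMap ℚ ℚ) = S + S.transpose := by
      ext i j; simp
    rw [h2] at h1
    exact h1.symm
  have hdiag : ∀ i : Fin (n + 1), i ≠ 0 → (S + S.transpose) i i = 0 := by
    intro i hi
    have h1 := hval (Pi.single i 1) (by simp [hi.symm])
    simpa using h1
  have hoff : ∀ i j : Fin (n + 1), i ≠ 0 → j ≠ 0 → (S + S.transpose) i j = 0 := by
    intro i j hi hj
    have h1 := hval (Pi.single i 1 + Pi.single j 1) (by simp [hi.symm, hj.symm])
    rw [Matrix.mulVec_add, add_dotProduct, dotProduct_add, dotProduct_add] at h1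
    simp only [Matrix.mulVec_single_one, single_one_dotProduct, Matrix.col_apply] at h1
    rw [hdiag i hi, hdiag j hj] at h1
    have h2 : (S + S.transpose) j i = (S + S.transpose) i j := by
      simp [Matrix.add_apply, add_comm]
    rw [h2] at h1
    linarith
  apply hdet
  rw [← Matrix.exists_mulVec_eq_zero_iff]
  let i1 : Fin (n + 1) := ⟨1, by omega⟩
  let i2 : Fin (n + 1) := ⟨2, by omega⟩
  have h10 : i1 ≠ 0 := by simp [i1, Fin.ext_iff]
  have h20 : i2 ≠ 0 := by simp [i2, Fin.ext_iff]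
  have h12 : i1 ≠ i2 := by simp [i1, i2, Fin.ext_iff]
  set G := S + S.transpose with hG
  have hGv : ∀ a b : ℚ, a * G 0 i1 + b * G 0 i2 = 0 →
      G.mulVec (a • Pi.single i1 1 + b • Pi.single i2 1) = 0 := by
    intro a b hab
    rw [Matrix.mulVec_add, Matrix.mulVec_smul, Matrix.mulVec_smul, Matrix.mulVec_single_one,
      Matrix.mulVec_single_one]
    ext k
    simp only [Pi.add_apply, Pi.smul_apply, Matrix.col_apply, smul_eq_mul, Pi.zero_apply]
    by_cases hk : k = 0
    · subst hk; exact hab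
    · rw [hoff k i1 hk h10, hoff k i2 hk h20]; ring
  by_cases ha : G 0 i1 = 0
  · refine ⟨(1 : ℚ) • Pi.single i1 1 + (0 : ℚ) • Pi.single i2 1, ?_, hGv 1 0 (by rw [ha]; ring)⟩
    intro h
    have := congrFun h i1
    simp at this
  · refine ⟨G 0 i2 • Pi.single i1 1 + (-G 0 i1) • Pi.single i2 1, ?_,
      hGv _ _ (by ring)⟩
    intro h
    have := congrFun h i2
    simp [h12] at this
    exact ha this

/-- The dehomogenized quadratic polynomial. -/
noncomputable def affPoly (S : Matrix (Fin (n + 1)) (Fin (n + 1)) ℚ) : MvPolynomial (Fin n) ℚ :=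
  ∑ i, ∑ j, C (S i j) * (affVec n ℚ i * affVec n ℚ j)

theorem aeval_affVec_qpoly (S : Matrix (Fin (n + 1)) (Fin (n + 1)) ℚ) :
    aeval (affVec n ℚ) (qpoly S) = affPoly S := by
  rw [aeval_qpoly]
  rfl

/-- Homogeneous polynomials over `ℚ` vanishing on the affine quadric are divisible by its
homogeneous equation. -/
theorem qpoly_dvd (S : Matrix (Fin (n + 1)) (Fin (n + 1)) ℚ) (hn : 2 ≤ n)
    (hdet : (S + S.transpose).det ≠ 0) {P : MvPolynomial (Fin (n + 1)) ℚ} {d : ℕ}
    (hP : P.IsHomogeneous d) (hmem : aeval (affVec n ℚ) P ∈ Ideal.span {affPoly S}) :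
    qpoly S ∣ P := by
  obtain ⟨a, ha⟩ := Ideal.mem_span_singleton.mp hmem
  obtain ⟨e, Ah, hAh, hAa⟩ := exists_homogenization (R := ℚ) (affVec n ℚ) 0 (by simp [affVec]) a
    (by rw [adjoin_affVec]; trivial)
  have h1 : X 0 ^ (e + 2) * P = X 0 ^ d * (qpoly S * Ah) := by
    rw [← sub_eq_zero]
    apply eq_zero_of_dehom (d := (e + 2) + d)
    · refine IsHomogeneous.sub ((isHomogeneous_X_pow 0 (e + 2)).mul hP) ?_
      have h2 := (isHomogeneous_X_pow (R := ℚ) (0 : Fin (n + 1)) d).mul
        ((isHomogeneous_qpoly S).mul hAh)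
      have h3 : d + (2 + e) = (e + 2) + d := by ring
      rw [h3] at h2
      exact h2
    · rw [map_sub, map_mul, map_mul, map_mul, aeval_affVec_qpoly, hAa, ha]
      simp [affVec]
  apply dvd_of_dvd_X_pow_mul 0 (not_X_dvd_qpoly S hn hdet) (e + 2)
  rw [h1]
  exact ⟨X 0 ^ d * Ah, by ring⟩

end Kernel

section Integral

variable {n : ℕ}

/-- The integral homogeneous quadratic polynomial with coefficient matrix `A`. -/
noncomputable def zpoly (A : Matrix (Fin n) (Fin n) ℤ) : MvPolynomial (Fin n) ℤ := qf A X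

theorem aeval_zpoly {R : Type*} [CommRing R] [Algebra ℤ R] (A : Matrix (Fin n) (Fin n) ℤ) (x : Fin n → R) :
    aeval x (zpoly A) = qf A x := by
  rw [zpoly]
  have := map_qf A (aeval x : MvPolynomial (Fin n) ℤ →ₐ[ℤ] R).toRingHom (X : Fin n → _)
  simp only [AlgHom.toRingHom_eq_coe, RingHom.coe_coe, aeval_X] at this
  exact this

/-- A polynomial which is primitive can be cancelled from integer multiples. -/
theorem dvd_of_C_mul {σ : Type*} (Q : MvPolynomial σ ℤ)
    (hQ : ∀ p : ℕ, p.Prime → ¬ (C (p : ℤ) ∣ Q)) (m : ℕ) :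
    ∀ (z : ℤ) (H b : MvPolynomial σ ℤ), z ≠ 0 → z.natAbs ≤ m → C z * H = Q * b → Q ∣ H := by
  induction m with
  | zero =>
    intro z H b hz hm
    exact absurd (Int.natAbs_eq_zero.mp (Nat.le_zero.mp hm)) hz
  | succ m ih =>
    intro z H b hz hm h
    by_cases h1 : z.natAbs = 1
    · have hu : IsUnit z := Int.isUnit_iff_natAbs_eq.mpr h1
      obtain ⟨u, hu⟩ := hu
      refine ⟨C (↑(u⁻¹) : ℤ) * b, ?_⟩
      have : C (↑(u⁻¹) : ℤ) * (C z * H) = C (↑(u⁻¹) : ℤ) * (Q * b) := by rw [h]
      rw [← mul_assoc, ← C_mul, ← hu, Units.inv_mul, C_1, one_mul] at this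
      rw [this]; ring
    · obtain ⟨p, hp, hpz⟩ := Nat.exists_prime_and_dvd h1
      have hpz' : (p : ℤ) ∣ z := Int.natCast_dvd.mpr hpz
      obtain ⟨z', rfl⟩ := hpz'
      have hpp : Prime (C (p : ℤ) : MvPolynomial σ ℤ) := by
        rw [prime_C_iff]; exact Nat.prime_iff_prime_int.mp hp
      have h2 : C (p : ℤ) ∣ Q * b := by
        rw [← h, C_mul]; exact ⟨C z' * H, by ring⟩
      obtain ⟨b', rfl⟩ := (hpp.dvd_or_dvd h2).resolve_left (hQ p hp)
      have h3 : C z' * H = Q * b' := by
        apply mul_left_cancel₀ hpp.ne_zero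
        rw [C_mul] at h
        linear_combination h
      have hz' : z' ≠ 0 := by rintro rfl; simp at hz
      refine ih z' H b' hz' ?_ h3
      rw [Int.natAbs_mul, Int.natAbs_natCast] at hm
      have h4 : 0 < z'.natAbs := Int.natAbs_pos.mpr hz'
      have h5 := hp.two_le
      nlinarith

theorem Good.not_dvd {A : Matrix (Fin (n + 1)) (Fin (n + 1)) ℤ} (hn : 1 ≤ n) {p : ℕ}
    (hp : p.Prime) (h : Good A p) : ¬ (C (p : ℤ) ∣ zpoly A) := by
  rintro ⟨B, hB⟩
  have : Fact p.Prime := ⟨hp⟩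
  have hval : ∀ w : Fin (n + 1) → ZMod p, qf A w = 0 := by
    intro w
    rw [← aeval_zpoly, hB, map_mul, aeval_C]
    simp
  have hrad : ∀ w : Fin (n + 1) → ZMod p, w ∈ radSet A p := by
    intro w
    refine ⟨fun k => ?_, hval w⟩
    have h1 := hval (w + Pi.single k 1)
    rw [qf_add, hval, hval] at h1
    simpa using h1
  have h0 : (Pi.single 0 1 : Fin (n + 1) → ZMod p) ≠ 0 := by
    intro h
    have := congrFun h 0
    simp at this
  obtain ⟨c, hc⟩ := h.line (Pi.single 0 1) (hrad _) h0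
    (Pi.single ⟨1, by omega⟩ 1) (hrad _)
  have := congrFun hc ⟨1, by omega⟩
  have h01 : (⟨1, by omega⟩ : Fin (n + 1)) ≠ 0 := by simp [Fin.ext_iff]
  simp [h01] at this

/-- Substitution by a rational matrix. -/
noncomputable def substM (M : Matrix (Fin n) (Fin n) ℚ) :
    MvPolynomial (Fin n) ℚ →ₐ[ℚ] MvPolynomial (Fin n) ℚ :=
  aeval fun i => ∑ j, C (M i j) * X j

theorem aeval_substM {R : Type*} [CommRing R] [Algebra ℚ R] (M : Matrix (Fin n) (Fin n) ℚ)
    (x : Fin n → R) (P : MvPolynomial (Fin n) ℚ) :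
    aeval x (substM M P) = aeval ((M.map (algebraMap ℚ R)).mulVec x) P := by
  rw [substM, ← AlgHom.comp_apply, comp_aeval]
  congr 1
  congr 1
  ext i
  simp [Matrix.mulVec, dotProduct]

theorem substM_eq_aeval (M : Matrix (Fin n) (Fin n) ℚ) (P : MvPolynomial (Fin n) ℚ) :
    substM M P = aeval ((M.map (algebraMap ℚ (MvPolynomial (Fin n) ℚ))).mulVec X) P := by
  rw [substM]
  have hv : (fun i => ∑ j, C (M i j) * X j : Fin n → MvPolynomial (Fin n) ℚ) =
      (M.map (algebraMap ℚ (MvPolynomial (Fin n) ℚ))).mulVec X := by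
    ext1 i
    simp only [Matrix.mulVec, dotProduct, Matrix.map_apply, algebraMap_eq]
  rw [hv]

theorem substM_substM (M M' : Matrix (Fin n) (Fin n) ℚ) (P : MvPolynomial (Fin n) ℚ) :
    substM M (substM M' P) = substM (M' * M) P := by
  rw [substM_eq_aeval M, aeval_substM, substM_eq_aeval, Matrix.mulVec_mulVec, Matrix.map_mul]

theorem substM_one (P : MvPolynomial (Fin n) ℚ) : substM 1 P = P := by
  have : (substM (1 : Matrix (Fin n) (Fin n) ℚ)) = AlgHom.id ℚ _ := by
    apply MvPolynomial.algHom_ext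
    intro i
    simp only [substM, aeval_X, AlgHom.id_apply]
    rw [Finset.sum_eq_single i]
    · simp
    · intro j _ hj
      simp [hj.symm]
    · simp
  rw [this]; rfl

theorem isHomogeneous_substM (M : Matrix (Fin n) (Fin n) ℚ) {P : MvPolynomial (Fin n) ℚ} {d : ℕ}
    (hP : P.IsHomogeneous d) : (substM M P).IsHomogeneous d := by
  have := hP.aeval (fun i => ∑ j, C (M i j) * X j : Fin n → MvPolynomial (Fin n) ℚ) (n := 1)
    (fun i => IsHomogeneous.sum _ _ _ fun j _ => isHomogeneous_C_mul_X _ _)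
  rw [one_mul] at this
  exact this

/-- The integral model is the transform of the rational form. -/
theorem map_zpoly_eq {S : Matrix (Fin n) (Fin n) ℚ} {A : Matrix (Fin n) (Fin n) ℤ}
    {M : Matrix (Fin n) (Fin n) ℚ} {c : ℚ}
    (h : (A + A.transpose).map (Int.cast : ℤ → ℚ) = c • (M.transpose * (S + S.transpose) * M)) :
    map (Int.castRingHom ℚ) (zpoly A) = C c * substM M (qpoly S) := by
  have h2 : (2 : MvPolynomial (Fin n) ℚ) * map (Int.castRingHom ℚ) (zpoly A) =
      2 * (C c * substM M (qpoly S)) := by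
    have h1 : map (Int.castRingHom ℚ) (zpoly A) = qf A (X : Fin n → MvPolynomial (Fin n) ℚ) := by
      rw [zpoly, map_qf]
      congr 1
      ext i : 1
      rw [map_X]
    rw [h1, ← bf_self, bf_eq_dotProduct]
    have h3 : (A + A.transpose).map (Int.cast : ℤ → MvPolynomial (Fin n) ℚ) =
        ((A + A.transpose).map (Int.cast : ℤ → ℚ)).map
          (algebraMap ℚ (MvPolynomial (Fin n) ℚ)) := by
      ext i j : 2
      simp
    have h4 : (c • (M.transpose * (S + S.transpose) * M)).map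
        (algebraMap ℚ (MvPolynomial (Fin n) ℚ)) = (C c : MvPolynomial (Fin n) ℚ) •
          ((M.map (algebraMap ℚ (MvPolynomial (Fin n) ℚ))).transpose *
            (S + S.transpose).map (algebraMap ℚ (MvPolynomial (Fin n) ℚ)) *
              M.map (algebraMap ℚ (MvPolynomial (Fin n) ℚ))) := by
      have h5 : (M.transpose * (S + S.transpose) * M).map
          (algebraMap ℚ (MvPolynomial (Fin n) ℚ)) =
          ((M.map (algebraMap ℚ (MvPolynomial (Fin n) ℚ))).transpose *
            (S + S.transpose).map (algebraMap ℚ (MvPolynomial (Fin n) ℚ)) *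
              M.map (algebraMap ℚ (MvPolynomial (Fin n) ℚ))) := by
        rw [Matrix.map_mul, Matrix.map_mul]
        rfl
      rw [← h5]
      ext i j : 1
      simp only [Matrix.map_apply, Matrix.smul_apply, smul_eq_mul, algebraMap_eq, map_mul]
    rw [h3, h, h4, Matrix.smul_mulVec, dotProduct_smul, dotProduct_transform,
      ← two_mul_aeval_qpoly, ← substM_eq_aeval, smul_eq_mul]
    ring
  exact mul_left_cancel₀ two_ne_zero h2

end Integral

end Pool.Agent.H97
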