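import Pool.Agent.H97.Field
import Pool.Agent.H97.ChartReg
import Pool.Agent.H97.ProjModel

set_option autoImplicit false

namespace Pool.Agent.H97

open MvPolynomial

/-- Clearing denominators of a polynomial with rational coefficients. -/
theorem exists_clear {σ : Type*} (B : MvPolynomial σ ℚ) :
    ∃ (z : ℤ) (b : MvPolynomial σ ℤ), z ≠ 0 ∧ map (Int.castRingHom ℚ) b = C (z : ℚ) * B := by
  induction B using MvPolynomial.induction_on with
  | C r =>
    refine ⟨r.den, C r.num, by exact_mod_cast r.den_ne_zero, ?_⟩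
    rw [map_C, ← C_mul]
    congr 1
    push_cast
    rw [Rat.den_mul_eq_num]
    simp
  | add p q hp hq =>
    obtain ⟨z, b, hz, hb⟩ := hp
    obtain ⟨z', b', hz', hb'⟩ := hq
    refine ⟨z * z', C z' * b + C z * b', mul_ne_zero hz hz', ?_⟩
    rw [map_add, map_mul, map_mul, map_C, map_C, hb, hb', Int.cast_mul, C_mul,
      Int.coe_castRingHom]
    ring
  | mul_X p i hp =>
    obtain ⟨z, b, hz, hb⟩ := hp
    exact ⟨z, b * X i, hz, by rw [map_mul, hb, map_X, mul_assoc]⟩

/-- The abstract situation: a field `K` with generating vector `y = (1, y₁, …, y_n)` satisfying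
exactly the relation given by `affPoly S`. -/
structure QuadricField {n : ℕ} (S : Matrix (Fin (n + 1)) (Fin (n + 1)) ℚ) (K : Type) [Field K]
    [Algebra ℚ K] (ψ : MvPolynomial (Fin n) ℚ →ₐ[ℚ] K) : Prop where
  ker : ∀ h, ψ h = 0 ↔ h ∈ Ideal.span {affPoly S}
  frac : ∀ k : K, ∃ a b, ψ b ≠ 0 ∧ k = ψ a / ψ b

section

variable {n : ℕ} {S : Matrix (Fin (n + 1)) (Fin (n + 1)) ℚ} {K : Type} [Field K] [Algebra ℚ K]
  {ψ : MvPolynomial (Fin n) ℚ →ₐ[ℚ] K}
  {A : Matrix (Fin (n + 1)) (Fin (n + 1)) ℤ} {M : Matrix (Fin (n + 1)) (Fin (n + 1)) ℚ} {c : ℚ}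

/-- The new coordinates `M⁻¹ y`. -/
noncomputable def newCoord (ψ : MvPolynomial (Fin n) ℚ →ₐ[ℚ] K)
    (M : Matrix (Fin (n + 1)) (Fin (n + 1)) ℚ) : Fin (n + 1) → K :=
  (M⁻¹.map (algebraMap ℚ K)).mulVec fun i => ψ (affVec n ℚ i)

theorem mulVec_newCoord (hM : M.det ≠ 0) :
    (M.map (algebraMap ℚ K)).mulVec (newCoord ψ M) = fun i => ψ (affVec n ℚ i) := by
  rw [newCoord, Matrix.mulVec_mulVec, ← Matrix.map_mul,
    Matrix.mul_nonsing_inv _ (isUnit_iff_ne_zero.mpr hM)]
  simp

theorem aeval_y (P : MvPolynomial (Fin (n + 1)) ℚ) :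
    aeval (fun i => ψ (affVec n ℚ i)) P = ψ (aeval (affVec n ℚ) P) := by
  rw [← AlgHom.comp_apply, comp_aeval]

theorem qf_newCoord (hψ : QuadricField S K ψ) (hM : M.det ≠ 0)
    (hA : (A + A.transpose).map (Int.cast : ℤ → ℚ) =
      c • (M.transpose * (S + S.transpose) * M)) : qf A (newCoord ψ M) = 0 := by
  rw [← aeval_zpoly, ← aeval_map_algebraMap ℚ (newCoord ψ M) (zpoly A)]
  have h1 : (algebraMap ℤ ℚ) = Int.castRingHom ℚ := rfl
  rw [h1, map_zpoly_eq hA, map_mul, aeval_substM, mulVec_newCoord hM, aeval_y,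
    aeval_affVec_qpoly, (hψ.ker _).mpr (Ideal.mem_span_singleton_self _), mul_zero]

theorem zpoly_dvd (hn : 2 ≤ n) (hS : (S + S.transpose).det ≠ 0) (hψ : QuadricField S K ψ)
    (hM : M.det ≠ 0) (hc : c ≠ 0)
    (hA : (A + A.transpose).map (Int.cast : ℤ → ℚ) = c • (M.transpose * (S + S.transpose) * M))
    (hgood : ∀ p : ℕ, p.Prime → Good A p)
    {H : MvPolynomial (Fin (n + 1)) ℤ} {d : ℕ} (hH : H.IsHomogeneous d)
    (h0 : aeval (newCoord ψ M) H = 0) : zpoly A ∣ H := by
  rw [← aeval_map_algebraMap ℚ (newCoord ψ M) H] at h0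
  set HQ := map (algebraMap ℤ ℚ) H with hHQ
  have hHQh : HQ.IsHomogeneous d := hH.map _
  have h1 : aeval (fun i => ψ (affVec n ℚ i)) (substM M⁻¹ HQ) = 0 := by
    rw [aeval_substM]; exact h0
  rw [aeval_y, hψ.ker] at h1
  obtain ⟨B, hB⟩ := qpoly_dvd S hn hS (isHomogeneous_substM M⁻¹ hHQh) h1
  have h2 : HQ = substM M (qpoly S) * substM M B := by
    rw [← map_mul, ← hB, substM_substM, Matrix.nonsing_inv_mul _ (isUnit_iff_ne_zero.mpr hM),
      substM_one]
  have h3 : HQ = map (Int.castRingHom ℚ) (zpoly A) * (C c⁻¹ * substM M B) := by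
    rw [map_zpoly_eq hA, h2]
    have : (C c : MvPolynomial (Fin (n + 1)) ℚ) * C c⁻¹ = 1 := by
      rw [← C_mul, mul_inv_cancel₀ hc, C_1]
    linear_combination (-(substM M (qpoly S) * substM M B)) * this
  obtain ⟨z, b, hz, hb⟩ := exists_clear (C c⁻¹ * substM M B)
  have h4 : map (Int.castRingHom ℚ) (C z * H) = map (Int.castRingHom ℚ) (zpoly A * b) := by
    rw [map_mul, map_mul, hb, map_C]
    have : map (Int.castRingHom ℚ) H = HQ := rfl
    rw [this, h3]
    simp only [eq_intCast]
    ring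
  have h5 : C z * H = zpoly A * b :=
    map_injective _ (RingHom.injective_int (Int.castRingHom ℚ)) h4
  exact dvd_of_C_mul (zpoly A) (fun p hp => (hgood p hp).not_dvd (by omega) hp) z.natAbs z H b hz
    le_rfl h5

theorem zpoly_ne_zero (hn : 2 ≤ n) (hgood : ∀ p : ℕ, p.Prime → Good A p) : zpoly A ≠ 0 := by
  intro h
  apply (hgood 2 Nat.prime_two).not_dvd (by omega) Nat.prime_two
  rw [h]; exact dvd_zero _

theorem isHomogeneous_zpoly : (zpoly A).IsHomogeneous 2 := by
  refine IsHomogeneous.sum _ _ _ fun i _ => IsHomogeneous.sum _ _ _ fun j _ => ?_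
  have : ((A i j : ℤ) : MvPolynomial (Fin (n + 1)) ℤ) = C (A i j) := by simp
  rw [this]
  exact ((isHomogeneous_X _ i).mul (isHomogeneous_X _ j)).C_mul _

theorem newCoord_ne_zero (hn : 2 ≤ n) (hS : (S + S.transpose).det ≠ 0) (hψ : QuadricField S K ψ)
    (hM : M.det ≠ 0) (hc : c ≠ 0)
    (hA : (A + A.transpose).map (Int.cast : ℤ → ℚ) = c • (M.transpose * (S + S.transpose) * M))
    (hgood : ∀ p : ℕ, p.Prime → Good A p) (i : Fin (n + 1)) : newCoord ψ M i ≠ 0 := by
  intro h
  have h1 : aeval (newCoord ψ M) (X i : MvPolynomial (Fin (n + 1)) ℤ) = 0 := by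
    rw [aeval_X, h]
  obtain ⟨B, hB⟩ := zpoly_dvd hn hS hψ hM hc hA hgood (isHomogeneous_X ℤ i) h1
  have hB0 : B ≠ 0 := by
    rintro rfl
    rw [mul_zero] at hB
    exact X_ne_zero i hB
  have h2 := congrArg totalDegree hB
  rw [totalDegree_X, totalDegree_mul_of_isDomain (zpoly_ne_zero hn hgood) hB0,
    isHomogeneous_zpoly.totalDegree (zpoly_ne_zero hn hgood)] at h2
  omega

/-- The chart homomorphism `X_j ↦ g_j / g_i`. -/
noncomputable def chartHom (g : Fin (n + 1) → K) (i : Fin (n + 1)) : ChartS i →ₐ[ℤ] K :=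
  aeval fun j => g j / g i

omit [Algebra ℚ K] in
theorem chartHom_chartVec (g : Fin (n + 1) → K) (i : Fin (n + 1)) (hi : g i ≠ 0)
    (j : Fin (n + 1)) : chartHom g i (chartVec i j) = g j / g i := by
  by_cases h : j = i
  · subst h; rw [chartVec_self, map_one, div_self hi]
  · rw [chartVec_of_ne i h, chartHom, aeval_X]

omit [Algebra ℚ K] in
theorem chartHom_range (g : Fin (n + 1) → K) (i : Fin (n + 1)) (hi : g i ≠ 0) :
    (chartHom g i).range = chartRing g i := by
  rw [chartHom, ← Algebra.adjoin_range_eq_range_aeval, chartRing]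
  apply le_antisymm
  · apply Algebra.adjoin_mono
    rintro _ ⟨j, rfl⟩
    exact ⟨j, rfl⟩
  · rw [Algebra.adjoin_le_iff]
    rintro _ ⟨j, rfl⟩
    by_cases h : j = i
    · subst h
      show g j / g j ∈ _
      rw [div_self hi]; exact Subalgebra.one_mem _
    · exact Algebra.subset_adjoin ⟨⟨j, h⟩, rfl⟩

theorem adjoin_chartVec (i : Fin (n + 1)) :
    Algebra.adjoin ℤ (Set.range (chartVec i)) = ⊤ := by
  rw [eq_top_iff, ← MvPolynomial.adjoin_range_X]
  apply Algebra.adjoin_mono
  rintro _ ⟨j, rfl⟩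
  exact ⟨j, chartVec_of_ne i j.2⟩

theorem chartHom_ker (hn : 2 ≤ n) (hS : (S + S.transpose).det ≠ 0) (hψ : QuadricField S K ψ)
    (hM : M.det ≠ 0) (hc : c ≠ 0)
    (hA : (A + A.transpose).map (Int.cast : ℤ → ℚ) = c • (M.transpose * (S + S.transpose) * M))
    (hgood : ∀ p : ℕ, p.Prime → Good A p) (i : Fin (n + 1)) :
    RingHom.ker (chartHom (newCoord ψ M) i) = Ideal.span {chartPoly A i} := by
  set g := newCoord ψ M with hg
  have hi : g i ≠ 0 := newCoord_ne_zero hn hS hψ hM hc hA hgood i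
  apply le_antisymm
  · intro h hh
    rw [RingHom.mem_ker] at hh
    obtain ⟨d, H, hH, hHh⟩ := exists_homogenization (R := ℤ) (chartVec i) i (chartVec_self i) h
      (by rw [adjoin_chartVec]; trivial)
    have h1 : aeval g H = 0 := by
      have h2 := aeval_mul_of_isHomogeneous hH (g i) (fun j => chartHom g i (chartVec i j))
      have h3 : (fun j => g i * chartHom g i (chartVec i j)) = g := by
        ext j
        rw [chartHom_chartVec g i hi, mul_comm, div_mul_cancel₀ _ hi]
      rw [h3] at h2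
      rw [h2]
      have h4 : aeval (fun j => chartHom g i (chartVec i j)) H =
          chartHom g i (aeval (chartVec i) H) := by
        rw [← AlgHom.comp_apply, comp_aeval]
      rw [h4, hHh]
      have h5 : chartHom g i h = 0 := hh
      rw [h5, mul_zero]
    obtain ⟨B, hB⟩ := zpoly_dvd hn hS hψ hM hc hA hgood hH h1
    rw [Ideal.mem_span_singleton]
    refine ⟨aeval (chartVec i) B, ?_⟩
    rw [← hHh, hB, map_mul, aeval_zpoly]
    rfl
  · rw [Ideal.span_singleton_le_iff_mem, RingHom.mem_ker]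
    show chartHom g i (qf A (chartVec i)) = 0
    have h1 := map_qf A (chartHom g i).toRingHom (chartVec i)
    simp only [AlgHom.toRingHom_eq_coe, RingHom.coe_coe] at h1
    rw [h1]
    have h2 : (fun j => chartHom g i (chartVec i j)) = (g i)⁻¹ • g := by
      ext j
      rw [chartHom_chartVec g i hi, Pi.smul_apply, smul_eq_mul, div_eq_inv_mul]
    rw [h2, qf_smul, qf_newCoord hψ hM hA, mul_zero]

theorem isRegularRing_chartRing (hn : 2 ≤ n) (hS : (S + S.transpose).det ≠ 0)
    (hψ : QuadricField S K ψ) (hM : M.det ≠ 0) (hc : c ≠ 0)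
    (hA : (A + A.transpose).map (Int.cast : ℤ → ℚ) = c • (M.transpose * (S + S.transpose) * M))
    (hdet : (A + A.transpose).det ≠ 0)
    (hgood : ∀ p : ℕ, p.Prime → Good A p) (i : Fin (n + 1)) :
    IsRegularRing (chartRing (newCoord ψ M) i) := by
  have hi := newCoord_ne_zero hn hS hψ hM hc hA hgood i
  have h1 := isRegularRing_chart A i hdet hgood
  rw [← chartHom_ker hn hS hψ hM hc hA hgood i] at h1
  let e1 : (ChartS i ⧸ RingHom.ker (chartHom (newCoord ψ M) i)) ≃+*
    (chartHom (newCoord ψ M) i).range :=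
    RingHom.quotientKerEquivRange (chartHom (newCoord ψ M) i).toRingHom
  let e2 : (chartHom (newCoord ψ M) i).range ≃+* chartRing (newCoord ψ M) i :=
    (Subalgebra.equivOfEq _ _ (chartHom_range _ i hi)).toRingEquiv
  exact IsRegularRing.of_ringEquiv (e1.trans e2)

/-- The field `K` is the field of fractions of each chart ring. -/
theorem isFractionRing_chartRing (hψ : QuadricField S K ψ) (hM : M.det ≠ 0) (i : Fin (n + 1))
    (hi : newCoord ψ M i ≠ 0) : IsFractionRing (chartRing (newCoord ψ M) i) K := by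
  set g := newCoord ψ M with hg
  have hclos : Subfield.closure (chartRing g i : Set K) = ⊤ := by
    rw [eq_top_iff]
    set F := Subfield.closure (chartRing g i : Set K) with hF
    have hrat : ∀ r : ℚ, algebraMap ℚ K r ∈ F := fun r => by
      rw [eq_ratCast]; exact SubfieldClass.ratCast_mem F r
    have hgF : ∀ j, g j / g i ∈ F := fun j =>
      Subfield.subset_closure (Algebra.subset_adjoin ⟨j, rfl⟩)
    have hyg : ∀ k, ψ (affVec n ℚ k) / g i ∈ F := by
      intro k
      have h1 := congrFun (mulVec_newCoord (ψ := ψ) hM) k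
      rw [← h1, Matrix.mulVec, dotProduct, Finset.sum_div]
      refine F.sum_mem fun j _ => ?_
      rw [mul_div_assoc]
      exact F.mul_mem (hrat _) (hgF j)
    have hy : ∀ k, ψ (affVec n ℚ k) ∈ F := by
      intro k
      have h0 : ψ (affVec n ℚ 0) = 1 := by simp [affVec]
      have h1 := F.div_mem (hyg k) (hyg 0)
      rw [h0] at h1
      have h2 : ψ (affVec n ℚ k) / g i / (1 / g i) = ψ (affVec n ℚ k) := by
        field_simp
      rwa [h2] at h1
    have hall : ∀ P : MvPolynomial (Fin n) ℚ, ψ P ∈ F := by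
      intro P
      induction P using MvPolynomial.induction_on with
      | C r =>
        have : ψ (C r) = algebraMap ℚ K r := ψ.commutes r
        rw [this]; exact hrat r
      | add p q hp hq => rw [map_add]; exact F.add_mem hp hq
      | mul_X p j hp =>
        rw [map_mul]
        have := hy j.succ
        simp only [affVec, Fin.cons_succ] at this
        exact F.mul_mem hp this
    intro k _
    obtain ⟨a, b, _, rfl⟩ := hψ.frac k
    exact F.div_mem (hall a) (hall b)
  have hsurj : ∀ k : K, ∃ x y : chartRing g i, k = (x : K) / (y : K) := by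
    intro k
    have hk : k ∈ Subfield.closure (chartRing g i : Set K) := by rw [hclos]; trivial
    rw [Subfield.mem_closure_iff] at hk
    obtain ⟨x, hx, y, hy, rfl⟩ := hk
    have hcl : Subring.closure (chartRing g i : Set K) = (chartRing g i).toSubring :=
      Subring.closure_eq (chartRing g i).toSubring
    rw [hcl] at hx hy
    exact ⟨⟨x, hx⟩, ⟨y, hy⟩, rfl⟩
  exact IsFractionRing.of_field (chartRing g i) K hsurj

end

/-- **Quadrics in an odd number of variables.** -/
theorem quadric_main {n : ℕ} (hn : 2 ≤ n) (hev : Even n)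
    (S : Matrix (Fin (n + 1)) (Fin (n + 1)) ℚ) (hS : (S + S.transpose).det ≠ 0)
    (K : Type) [Field K] [Algebra ℚ K] (ψ : MvPolynomial (Fin n) ℚ →ₐ[ℚ] K)
    (hψ : QuadricField S K ψ) :
    ∃ (X' : AlgebraicGeometry.Scheme.{0}) (_ : AlgebraicGeometry.IsIntegral X')
      (f : X' ⟶ AlgebraicGeometry.Spec (CommRingCat.of ℤ)),
        AlgebraicGeometry.IsProper f ∧
        (∀ x : X',
          (((Module.finrank (IsLocalRing.ResidueField (X'.presheaf.stalk x))
              (IsLocalRing.CotangentSpace (X'.presheaf.stalk x)) : ℕ∞)) : WithBot ℕ∞)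
            = ringKrullDim (X'.presheaf.stalk x)) ∧
        Nonempty (X'.functionField ≃+* K) := by
  obtain ⟨A, ⟨M, c, hM, hc, hA⟩, hdet, hgood⟩ := exists_good (hev.add_one) S hS
  have hg := newCoord_ne_zero hn hS hψ hM hc hA hgood
  exact exists_projective_model' (newCoord ψ M) hg 0
    (isRegularRing_chartRing hn hS hψ hM hc hA hdet hgood)
    (isFractionRing_chartRing hψ hM 0 (hg 0))

end Pool.Agent.H97
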