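import Mathlib

set_option autoImplicit false

namespace Pool.Agent.H97

open IsLocalRing

/-- A quotient of a regular local ring by elements that are linearly independent in the cotangent
space is a regular local ring. -/
theorem isRegularLocalRing_quotient {R : Type*} [CommRing R] [IsRegularLocalRing R] {c : ℕ}
    (f : Fin c → R) (hf : ∀ i, f i ∈ maximalIdeal R)
    (hli : LinearIndependent (ResidueField R)
      (fun i => (maximalIdeal R).toCotangent ⟨f i, hf i⟩ : Fin c → CotangentSpace R)) :
    IsRegularLocalRing (R ⧸ Ideal.span (Set.range f)) := by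
  classical
  set I : Ideal R := Ideal.span (Set.range f) with hI
  set k := ResidueField R
  set V := CotangentSpace R
  set fbar : Fin c → V := fun i => (maximalIdeal R).toCotangent ⟨f i, hf i⟩ with hfbar
  have hIm : I ≤ maximalIdeal R := by
    rw [hI, Ideal.span_le]
    rintro _ ⟨i, rfl⟩
    exact hf i
  have hnt : Nontrivial (R ⧸ I) :=
    Ideal.Quotient.nontrivial_iff.mpr (fun h => by
      rw [h, top_le_iff] at hIm
      exact (maximalIdeal.isMaximal R).ne_top hIm)
  have hloc : IsLocalRing (R ⧸ I) :=
    IsLocalRing.of_surjective' (Ideal.Quotient.mk I) Ideal.Quotient.mk_surjective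
  apply IsRegularLocalRing.of_spanFinrank_maximalIdeal_le
  -- dimension of the cotangent space
  have hdimV : (Module.finrank k V : WithBot ℕ∞) = ringKrullDim R :=
    (IsRegularLocalRing.iff_finrank_cotangentSpace R).mp inferInstance
  -- choose lifts of a basis of the quotient of the cotangent space
  let W : Submodule k V := Submodule.span k (Set.range fbar)
  have hW : Module.finrank k W = c := by
    have := finrank_span_eq_card hli
    simpa using this
  have hVW : Module.finrank k (V ⧸ W) + c = Module.finrank k V := by
    rw [← hW]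
    exact Submodule.finrank_quotient_add_finrank W
  let b := Module.finBasis k (V ⧸ W)
  have hsurj : ∀ j, ∃ h : maximalIdeal R, W.mkQ ((maximalIdeal R).toCotangent h) = b j := by
    intro j
    obtain ⟨v, hv⟩ := W.mkQ_surjective (b j)
    obtain ⟨h, hh⟩ := Ideal.toCotangent_surjective (maximalIdeal R) v
    exact ⟨h, by rw [hh, hv]⟩
  choose h hh using hsurj
  let s : Set (maximalIdeal R) := Set.range (fun i => (⟨f i, hf i⟩ : maximalIdeal R)) ∪ Set.range h
  have hspan : Submodule.span k ((maximalIdeal R).toCotangent '' s) = ⊤ := by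
    rw [eq_top_iff]
    intro v _
    have h1 : W.mkQ v ∈ Submodule.span k (Set.range b) := by
      rw [b.span_eq]; trivial
    have hWle : W ≤ Submodule.span k ((maximalIdeal R).toCotangent '' s) := by
      apply Submodule.span_mono
      rintro _ ⟨i, rfl⟩
      exact ⟨_, Or.inl ⟨i, rfl⟩, rfl⟩
    have h2 : Submodule.span k (Set.range b) ≤
        (Submodule.span k ((maximalIdeal R).toCotangent '' s)).map W.mkQ := by
      rw [Submodule.span_le]
      rintro _ ⟨j, rfl⟩
      exact ⟨_, Submodule.subset_span ⟨_, Or.inr ⟨j, rfl⟩, rfl⟩, hh j⟩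
    obtain ⟨w, hw, hwv⟩ := h2 h1
    have h3 : v - w ∈ W := by
      rw [← Submodule.Quotient.mk_eq_zero, Submodule.Quotient.mk_sub, sub_eq_zero]
      exact hwv.symm
    have h4 := Submodule.add_mem _ (hWle h3) hw
    simpa using h4
  have hspan' : Submodule.span R s = ⊤ := CotangentSpace.span_image_eq_top_iff.mp hspan
  have hm : maximalIdeal R = Ideal.span (Set.range f ∪ Set.range (fun j => (h j : R))) := by
    have := congrArg (Submodule.map (maximalIdeal R).subtype) hspan'
    rw [Submodule.map_span, Submodule.map_top, Submodule.range_subtype] at this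
    refine this.symm.trans ?_
    rw [Set.image_union, ← Set.range_comp, ← Set.range_comp]
    rfl
  have hm' : maximalIdeal (R ⧸ I) =
      Ideal.span (Set.range (fun j => Ideal.Quotient.mk I (h j : R))) := by
    have h1 : maximalIdeal (R ⧸ I) = (maximalIdeal R).map (Ideal.Quotient.mk I) := by
      have h2 : (maximalIdeal (R ⧸ I)).comap (Ideal.Quotient.mk I) = maximalIdeal R :=
        IsLocalRing.eq_maximalIdeal
          (Ideal.comap_isMaximal_of_surjective _ Ideal.Quotient.mk_surjective)
      rw [← h2, Ideal.map_comap_of_surjective _ Ideal.Quotient.mk_surjective]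
    rw [h1]
    apply le_antisymm
    · rw [Ideal.map_le_iff_le_comap]
      refine hm.trans_le ?_
      rw [Ideal.span_le]
      rintro _ (⟨i, rfl⟩ | ⟨j, rfl⟩)
      · have : Ideal.Quotient.mk I (f i) = 0 :=
          Ideal.Quotient.eq_zero_iff_mem.mpr (Ideal.subset_span ⟨i, rfl⟩)
        simp only [Ideal.coe_comap, Set.mem_preimage, this, SetLike.mem_coe]
        exact Ideal.zero_mem _
      · exact Ideal.subset_span ⟨j, rfl⟩
    · rw [Ideal.span_le]
      rintro _ ⟨j, rfl⟩
      exact Ideal.mem_map_of_mem _ (h j).2
  rw [hm']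
  have hcard : (Submodule.spanFinrank
      (Ideal.span (Set.range (fun j => Ideal.Quotient.mk I (h j : R))))) ≤
        Module.finrank k (V ⧸ W) := by
    refine (Submodule.spanFinrank_span_le_ncard_of_finite (Set.finite_range _)).trans ?_
    rw [← Set.image_univ]
    refine (Set.ncard_image_le Set.finite_univ).trans ?_
    rw [Set.ncard_univ, Nat.card_eq_fintype_card, Fintype.card_fin]
  have hdim : ringKrullDim R ≤ ringKrullDim (R ⧸ I) + c := by
    have h1 := ringKrullDim_le_ringKrullDim_quotient_add_card (Finset.univ.image f)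
      (by
        rw [IsLocalRing.ringJacobson_eq_maximalIdeal]
        intro x hx
        simp only [Finset.coe_image, Finset.coe_univ, Set.image_univ] at hx
        obtain ⟨i, rfl⟩ := hx
        exact hf i)
    have h2 : ((Finset.univ.image f : Finset R) : Set R) = Set.range f := by simp
    rw [h2] at h1
    refine h1.trans ?_
    gcongr
    have h3 : (Finset.univ.image f).card ≤ c := Finset.card_image_le.trans (by simp)
    exact_mod_cast h3
  obtain ⟨D, hD⟩ : ∃ D : ℕ∞, (D : WithBot ℕ∞) = ringKrullDim (R ⧸ I) :=
    WithBot.ne_bot_iff_exists.mp (ringKrullDim_ne_bot)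
  rw [← hD] at hdim ⊢
  rw [← hdimV, ← hVW] at hdim
  have hdim' : ((Module.finrank k (V ⧸ W) + c : ℕ) : ℕ∞) ≤ D + c := by exact_mod_cast hdim
  have hfin : ((Module.finrank k (V ⧸ W) : ℕ) : ℕ∞) ≤ D := by
    induction D using ENat.recTopCoe with
    | top => exact le_top
    | coe D =>
      have : Module.finrank k (V ⧸ W) + c ≤ D + c := by exact_mod_cast hdim'
      exact_mod_cast Nat.le_of_add_le_add_right this
  refine le_trans ?_ (WithBot.coe_le_coe.mpr hfin)
  exact_mod_cast hcard

/-- Localized version. -/
theorem isRegularLocalRing_localization_quotient {S : Type*} [CommRing S] {c : ℕ}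
    (f : Fin c → S) (Q : Ideal (S ⧸ Ideal.span (Set.range f))) [Q.IsPrime]
    (P : Ideal S) [P.IsPrime] (hPQ : P = Q.comap (Ideal.Quotient.mk (Ideal.span (Set.range f))))
    [IsRegularLocalRing (Localization.AtPrime P)]
    (h : ∀ (a : Fin c → S) (t : S), t ∉ P → t * ∑ i, a i * f i ∈ P ^ 2 → ∀ i, a i ∈ P) :
    IsRegularLocalRing (Localization.AtPrime Q) := by
  classical
  have hfP : ∀ i, f i ∈ P := by
    intro i
    have h0 : Ideal.Quotient.mk (Ideal.span (Set.range f)) (f i) = 0 :=
      Ideal.Quotient.eq_zero_iff_mem.mpr (Ideal.subset_span (Set.mem_range_self i))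
    rw [hPQ, Ideal.mem_comap, h0]
    exact Q.zero_mem
  let R := Localization.AtPrime P
  let f' : Fin c → R := fun i => algebraMap S R (f i)
  have hf' : ∀ i, f' i ∈ maximalIdeal R := fun i =>
    (IsLocalization.AtPrime.to_map_mem_maximal_iff R P (f i)).mpr (hfP i)
  have hli : LinearIndependent (ResidueField R)
      (fun i => (maximalIdeal R).toCotangent ⟨f' i, hf' i⟩ : Fin c → CotangentSpace R) := by
    rw [Fintype.linearIndependent_iff]
    intro g hg
    choose r hr using fun i => IsLocalRing.residue_surjective (g i)
    obtain ⟨b, hb⟩ := IsLocalization.exist_integer_multiples_of_finset P.primeCompl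
      (Finset.univ.image r)
    have hb' : ∀ i, ∃ a : S, algebraMap S R a = (b : S) • r i := fun i =>
      hb (r i) (Finset.mem_image_of_mem _ (Finset.mem_univ i))
    choose a ha using hb'
    have hsum : ∑ i, r i * f' i ∈ maximalIdeal R ^ 2 := by
      have h1 : (maximalIdeal R).toCotangent (∑ i, r i • (⟨f' i, hf' i⟩ : maximalIdeal R)) = 0 := by
        rw [map_sum, ← hg]
        refine Finset.sum_congr rfl fun i _ => ?_
        rw [map_smul, ← hr i]
        rfl
      rw [Ideal.toCotangent_eq_zero] at h1
      simpa using h1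
    have hsum2 : algebraMap S R (∑ i, a i * f i) ∈ (P ^ 2).map (algebraMap S R) := by
      rw [Ideal.map_pow, Localization.AtPrime.map_eq_maximalIdeal, map_sum]
      have : ∑ i, algebraMap S R (a i * f i) = algebraMap S R b * ∑ i, r i * f' i := by
        rw [Finset.mul_sum]
        refine Finset.sum_congr rfl fun i _ => ?_
        rw [map_mul, ha, Algebra.smul_def, mul_assoc]
      rw [this]
      exact Ideal.mul_mem_left _ _ hsum
    rw [IsLocalization.algebraMap_mem_map_algebraMap_iff P.primeCompl] at hsum2
    obtain ⟨t, ht, htm⟩ := hsum2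
    intro i
    have hai := h a t ht htm i
    have h3 : algebraMap S R (a i) ∈ maximalIdeal R :=
      (IsLocalization.AtPrime.to_map_mem_maximal_iff R P (a i)).mpr hai
    rw [ha, Algebra.smul_def] at h3
    have h4 : r i ∈ maximalIdeal R := by
      rcases (maximalIdeal.isMaximal R).isPrime.mem_or_mem h3 with h5 | h5
      · exact absurd ((IsLocalization.AtPrime.to_map_mem_maximal_iff R P (b : S)).mp h5) b.2
      · exact h5
    rw [← hr i]
    exact (IsLocalRing.residue_eq_zero_iff _).mpr h4
  have hreg := isRegularLocalRing_quotient f' hf' hli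
  -- the isomorphism
  let mk := Ideal.Quotient.mk (Ideal.span (Set.range f))
  have hM : Submonoid.map mk P.primeCompl = Q.primeCompl := by
    ext x
    constructor
    · rintro ⟨y, hy, rfl⟩
      intro hx
      apply hy
      rw [hPQ]
      exact hx
    · intro hx
      obtain ⟨y, rfl⟩ := Ideal.Quotient.mk_surjective x
      refine ⟨y, ?_, rfl⟩
      intro hy
      rw [hPQ] at hy
      exact hx hy
  have hle : P.primeCompl ≤ Q.primeCompl.comap mk := by
    rw [← hM]; exact Submonoid.le_comap_map _
  let φ : R →+* Localization.AtPrime Q := IsLocalization.map (Localization.AtPrime Q) mk hle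
  have hφ : Function.Surjective φ := by
    have : IsLocalization (Submonoid.map mk P.primeCompl) (Localization.AtPrime Q) := by
      rw [hM]; infer_instance
    exact IsLocalization.map_surjective_of_surjective P.primeCompl R (Localization.AtPrime Q)
      Ideal.Quotient.mk_surjective
  have hker : RingHom.ker φ = Ideal.span (Set.range f') := by
    have h1 : RingHom.ker φ = Ideal.map (algebraMap S R) (RingHom.ker mk) :=
      IsLocalization.ker_map (Localization.AtPrime Q) mk hM
    rw [h1, Ideal.mk_ker, Ideal.map_span, ← Set.range_comp]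
    rfl
  let e := RingHom.quotientKerEquivOfSurjective hφ
  have e' : (R ⧸ Ideal.span (Set.range f')) ≃+* (R ⧸ RingHom.ker φ) :=
    Ideal.quotEquivOfEq hker.symm
  exact IsRegularLocalRing.of_ringEquiv (e'.trans e)

/-- Jacobian-type criterion: a quotient of a regular ring by finitely many elements which are
independent modulo `P²` locally at each prime `P` containing them is a regular ring. -/
theorem isRegularRing_quotient {S : Type*} [CommRing S] [IsRegularRing S] {c : ℕ}
    (f : Fin c → S)
    (h : ∀ (P : Ideal S) [P.IsPrime], (∀ i, f i ∈ P) → ∀ (a : Fin c → S) (t : S), t ∉ P →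
      t * ∑ i, a i * f i ∈ P ^ 2 → ∀ i, a i ∈ P) :
    IsRegularRing (S ⧸ Ideal.span (Set.range f)) := by
  rw [isRegularRing_iff]
  intro Q hQ
  let P : Ideal S := Q.comap (Ideal.Quotient.mk (Ideal.span (Set.range f)))
  have hP : P.IsPrime := Ideal.comap_isPrime _ _
  refine isRegularLocalRing_localization_quotient f Q P rfl (h P ?_)
  intro i
  have h0 : Ideal.Quotient.mk (Ideal.span (Set.range f)) (f i) = 0 :=
    Ideal.Quotient.eq_zero_iff_mem.mpr (Ideal.subset_span (Set.mem_range_self i))
  show f i ∈ Q.comap (Ideal.Quotient.mk (Ideal.span (Set.range f)))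
  rw [Ideal.mem_comap, h0]
  exact Q.zero_mem

end Pool.Agent.H97
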