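import Pool.Agent.H97.QForm

set_option autoImplicit false

namespace Pool.Agent.H97

open MvPolynomial

variable {ι : Type} [Fintype ι] [DecidableEq ι] (A : Matrix ι ι ℤ) (p : ℕ) [Fact p.Prime]

omit [DecidableEq ι] in
/-- A quadratic form in three variables over `𝔽_p` has a nontrivial zero (Chevalley–Warning). -/
theorem exists_nontrivial_zero (z : Fin 3 → ι → ZMod p) :
    ∃ t : Fin 3 → ZMod p, t ≠ 0 ∧ qf A (∑ a, t a • z a) = 0 := by
  classical
  let v : ι → MvPolynomial (Fin 3) (ZMod p) := fun j => ∑ a, C (z a j) * X a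
  let f : MvPolynomial (Fin 3) (ZMod p) := qf A v
  have hv : ∀ j, (v j).totalDegree ≤ 1 := by
    intro j
    refine totalDegree_finsetSum_le fun a _ => ?_
    refine (totalDegree_mul _ _).trans ?_
    rw [totalDegree_C, totalDegree_X]
  have hf : f.totalDegree ≤ 2 := by
    refine totalDegree_finsetSum_le fun i _ => totalDegree_finsetSum_le fun j _ => ?_
    refine (totalDegree_mul _ _).trans ?_
    have h1 : ((A i j : ℤ) : MvPolynomial (Fin 3) (ZMod p)).totalDegree = 0 := by
      have : ((A i j : ℤ) : MvPolynomial (Fin 3) (ZMod p)) = C ((A i j : ℤ) : ZMod p) := by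
        simp
      rw [this, totalDegree_C]
    have h2 : (v i * v j).totalDegree ≤ 2 := by
      refine (totalDegree_mul _ _).trans ?_
      have := hv i
      have := hv j
      omega
    omega
  have hev : ∀ t : Fin 3 → ZMod p, eval t f = qf A (∑ a, t a • z a) := by
    intro t
    rw [map_qf]
    congr 1
    ext j
    simp only [v, map_sum, map_mul, eval_C, eval_X, Finset.sum_apply, Pi.smul_apply, smul_eq_mul]
    exact Finset.sum_congr rfl fun a _ => mul_comm _ _
  have hcw := char_dvd_card_solutions p (f := f) (lt_of_le_of_lt hf (by simp))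
  by_contra hcon
  push Not at hcon
  have huniq : Fintype.card {x : Fin 3 → ZMod p // eval x f = 0} = 1 := by
    rw [Fintype.card_eq_one_iff]
    refine ⟨⟨0, by rw [hev]; simp⟩, ?_⟩
    rintro ⟨y, hy⟩
    apply Subtype.ext
    by_contra hy0
    apply hcon y hy0
    rw [← hev, hy]
  rw [huniq] at hcw
  have := (Fact.out : p.Prime).one_lt
  have := Nat.le_of_dvd one_pos hcw
  omega

/-- The polar form of `qf A` over `𝔽_p`, as a bilinear form. -/
noncomputable def polarB : LinearMap.BilinForm (ZMod p) (ι → ZMod p) :=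
  LinearMap.mk₂ (ZMod p) (fun x y => bf A x y) (fun x y z => bf_add_left A x y z)
    (fun c x y => by rw [bf_smul_left]; rfl) (fun x y z => bf_add_right A x y z)
    (fun c x y => by rw [bf_smul_right]; rfl)

omit [DecidableEq ι] in
theorem polarB_apply (x y : ι → ZMod p) : polarB A p x y = bf A x y := rfl

omit [DecidableEq ι] in
theorem polarB_isRefl : (polarB A p).IsRefl := by
  intro x y h
  rw [polarB_apply] at h ⊢
  rw [bf_comm, h]

theorem bf_eq_zero_of_rad {R : Type*} [CommRing R] {w : ι → R}
    (hw : ∀ k, bf A w (Pi.single k 1) = 0) (y : ι → R) : bf A w y = 0 := by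
  rw [bf_eq_sum_single]
  simp [hw]

/-- If the number of variables is odd and the radical of `qf A` modulo `p` has dimension at least
two, then there is a totally singular subspace of dimension larger than half the number of
variables. -/
theorem exists_large_singular (hodd : Odd (Fintype.card ι)) (w w' : ι → ZMod p)
    (hw : w ∈ radSet A p) (hw0 : w ≠ 0) (hw' : w' ∈ radSet A p) (hne : ∀ c : ZMod p, w' ≠ c • w) :
    ∃ U : Submodule (ZMod p) (ι → ZMod p), (∀ u ∈ U, qf A u = 0) ∧
      Fintype.card ι < 2 * Module.finrank (ZMod p) U := by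
  classical
  let T : Set (Submodule (ZMod p) (ι → ZMod p)) := {U | ∀ u ∈ U, qf A u = 0}
  have hfin : Finite (Submodule (ZMod p) (ι → ZMod p)) := inferInstance
  obtain ⟨U, hU, hmax⟩ := Set.exists_max_image T (fun U => Module.finrank (ZMod p) U)
    (Set.toFinite T) ⟨⊥, fun u hu => by rw [(Submodule.mem_bot _).mp hu, qf_zero]⟩
  refine ⟨U, hU, ?_⟩
  have hbU : ∀ u ∈ U, ∀ u' ∈ U, bf A u u' = 0 := by
    intro u hu u' hu'
    have h := hU (u + u') (U.add_mem hu hu')
    rw [qf_add, hU u hu, hU u' hu'] at h
    simpa using h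
  have habs : ∀ z, (∀ u ∈ U, bf A u z = 0) → qf A z = 0 → z ∈ U := by
    intro z hz hqz
    have h1 : U ⊔ Submodule.span (ZMod p) {z} ∈ T := by
      intro x hx
      obtain ⟨u, hu, y, hy, rfl⟩ := Submodule.mem_sup.mp hx
      obtain ⟨c, rfl⟩ := Submodule.mem_span_singleton.mp hy
      rw [qf_add, hU u hu, qf_smul, hqz, bf_smul_right, hz u hu]
      ring
    have h2 := hmax _ h1
    have h3 : U = U ⊔ Submodule.span (ZMod p) {z} :=
      Submodule.eq_of_le_of_finrank_le le_sup_left h2
    rw [h3]
    exact (le_sup_right : _ ≤ U ⊔ Submodule.span (ZMod p) {z}) (Submodule.mem_span_singleton_self z)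
  have hwU : w ∈ U := habs w (fun u _ => by rw [bf_comm, bf_eq_zero_of_rad A hw.1]) hw.2
  have hwU' : w' ∈ U := habs w' (fun u _ => by rw [bf_comm, bf_eq_zero_of_rad A hw'.1]) hw'.2
  set Up := (polarB A p).orthogonal U with hUp
  have hmemUp : ∀ z, z ∈ Up ↔ ∀ u ∈ U, bf A u z = 0 := fun z =>
    LinearMap.BilinForm.mem_orthogonal_iff
  have hUUp : U ≤ Up := fun u hu => (hmemUp u).mpr fun u' hu' => hbU u' hu' u hu
  have hle : Module.finrank (ZMod p) Up ≤ Module.finrank (ZMod p) U + 2 := by
    by_contra hcon
    push Not at hcon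
    let W := Up.map U.mkQ
    have hWdim : Module.finrank (ZMod p) W + Module.finrank (ZMod p) U =
        Module.finrank (ZMod p) Up := by
      have h1 := LinearMap.finrank_range_add_finrank_ker (U.mkQ.comp Up.subtype)
      have h2 : LinearMap.range (U.mkQ.comp Up.subtype) = W := by
        rw [LinearMap.range_comp, Submodule.range_subtype]
      have h3 : LinearMap.ker (U.mkQ.comp Up.subtype) = U.comap Up.subtype := by
        rw [LinearMap.ker_comp, Submodule.ker_mkQ]
      rw [h2, h3, (Submodule.comapSubtypeEquivOfLe hUUp).finrank_eq] at h1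
      exact h1
    have h3 : 3 ≤ Module.finrank (ZMod p) W := by omega
    let b := Module.finBasis (ZMod p) W
    let f : Fin 3 → W := b ∘ Fin.castLE h3
    have hf : LinearIndependent (ZMod p) f :=
      b.linearIndependent.comp _ (Fin.castLE_injective h3)
    have hz : ∀ a, ∃ z ∈ Up, U.mkQ z = (f a : (ι → ZMod p) ⧸ U) := fun a => (f a).2
    choose z hz1 hz2 using hz
    obtain ⟨t, ht0, ht⟩ := exists_nontrivial_zero A p z
    have hmem : ∑ a, t a • z a ∈ U := by
      apply habs _ _ ht
      rw [← hmemUp]
      exact Submodule.sum_mem _ fun a _ => Submodule.smul_mem _ _ (hz1 a)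
    have h4 : ∑ a, t a • f a = 0 := by
      apply Subtype.ext
      have h5 : U.mkQ (∑ a, t a • z a) = 0 := by
        rw [Submodule.mkQ_apply]; exact (Submodule.Quotient.mk_eq_zero _).mpr hmem
      rw [map_sum] at h5
      simp only [map_smul, hz2] at h5
      simpa using h5
    exact ht0 (funext (Fintype.linearIndependent_iff.mp hf t h4))
  have hform := LinearMap.BilinForm.finrank_add_finrank_orthogonal (polarB_isRefl A p) U
  have hrad : 2 ≤ Module.finrank (ZMod p) (U ⊓ (polarB A p).orthogonal ⊤ : Submodule _ _) := by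
    have hli : LinearIndependent (ZMod p) ![w, w'] := by
      rw [LinearIndependent.pair_iff' hw0]
      intro c hc
      exact hne c hc.symm
    have h1 := finrank_span_eq_card hli
    have h2 : Submodule.span (ZMod p) (Set.range ![w, w']) ≤ U ⊓ (polarB A p).orthogonal ⊤ := by
      rw [Submodule.span_le]
      rintro _ ⟨k, rfl⟩
      refine ⟨?_, ?_⟩
      · fin_cases k
        · exact hwU
        · exact hwU'
      · rw [SetLike.mem_coe, LinearMap.BilinForm.mem_orthogonal_iff]
        intro y _
        show bf A y _ = 0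
        fin_cases k
        · show bf A y w = 0
          rw [bf_comm, bf_eq_zero_of_rad A hw.1]
        · show bf A y w' = 0
          rw [bf_comm, bf_eq_zero_of_rad A hw'.1]
    have h3 := Submodule.finrank_mono h2
    rw [h1] at h3
    simpa using h3
  rw [Module.finrank_fintype_fun_eq_card, ← hUp] at hform
  obtain ⟨m, hm⟩ := hodd
  omega

end Pool.Agent.H97
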